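import Mathlib

/-!
# Trees for groups of matrices over a field of characteristic zero
-/

set_option autoImplicit false

namespace Pool.Agent.Lib.MP_551055_al.LS
end Pool.Agent.Lib.MP_551055_al.LS

namespace Pool.Agent.Lib.MP_551055_al.BT

open Pool.Agent.Lib.MP_551055_al.LS

/-- Elements of a domain with a rational point which are algebraic over `ℚ` are rational. -/
theorem eq_of_integral {A : Type} [CommRing A] [IsDomain A] [Algebra ℚ A] (s : A →ₐ[ℚ] ℚ) (t : A)
    (ht : IsIntegral ℚ t) : algebraMap ℚ A (s t) = t := by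
  have hirr := minpoly.irreducible ht
  have hroot : (minpoly ℚ t).IsRoot (s t) := by
    have h1 : Polynomial.aeval (s t) (minpoly ℚ t) = s (Polynomial.aeval t (minpoly ℚ t)) :=
      Polynomial.aeval_algHom_apply s t _
    rw [minpoly.aeval, map_zero] at h1
    rw [Polynomial.IsRoot.def, ← Polynomial.coe_aeval_eq_eval]
    exact h1
  have hdeg : (minpoly ℚ t).degree = 1 := Polynomial.degree_eq_one_of_irreducible_of_root hirr hroot
  obtain ⟨q, hq⟩ := minpoly.mem_range_of_degree_eq_one ℚ t hdeg
  rw [← hq]
  congr 1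
  have h2 : s (algebraMap ℚ A q) = algebraMap ℚ ℚ q := s.commutes q
  rw [h2]
  rfl

end Pool.Agent.Lib.MP_551055_al.BT
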