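import Mathlib

/-!
# Discrete valuations, additively
-/

set_option autoImplicit false

namespace Pool.Agent.Lib.MP_551055_al.BT

universe u

/-- A discrete valuation: the order of the nonzero elements. -/
structure DV (L : Type u) [Field L] where
  o : L → ℤ
  mul' : ∀ x y, x ≠ 0 → y ≠ 0 → o (x * y) = o x + o y
  add' : ∀ x y, x ≠ 0 → y ≠ 0 → x + y ≠ 0 → min (o x) (o y) ≤ o (x + y)
  π : L
  π0 : π ≠ 0
  oπ : o π = 1

namespace DV

variable {L : Type u} [Field L] (v : DV L)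

/-- `x` has order at least `n`. -/
def ge (n : ℤ) (x : L) : Prop := x = 0 ∨ n ≤ v.o x

theorem o_one : v.o 1 = 0 := by
  have h := v.mul' 1 1 one_ne_zero one_ne_zero
  rw [mul_one] at h
  linarith

theorem o_neg_one : v.o (-1) = 0 := by
  have h := v.mul' (-1) (-1) (neg_ne_zero.2 one_ne_zero) (neg_ne_zero.2 one_ne_zero)
  rw [neg_mul_neg, mul_one, v.o_one] at h
  linarith

theorem o_neg (x : L) (hx : x ≠ 0) : v.o (-x) = v.o x := by
  rw [← neg_one_mul, v.mul' _ _ (neg_ne_zero.2 one_ne_zero) hx, v.o_neg_one, zero_add]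

theorem o_inv (x : L) (hx : x ≠ 0) : v.o x⁻¹ = -v.o x := by
  have h := v.mul' x x⁻¹ hx (inv_ne_zero hx)
  rw [mul_inv_cancel₀ hx, v.o_one] at h
  linarith

theorem o_div (x y : L) (hx : x ≠ 0) (hy : y ≠ 0) : v.o (x / y) = v.o x - v.o y := by
  rw [div_eq_mul_inv, v.mul' _ _ hx (inv_ne_zero hy), v.o_inv y hy]
  ring

theorem o_pow (x : L) (hx : x ≠ 0) (n : ℕ) : v.o (x ^ n) = n * v.o x := by
  induction n with
  | zero => simp [v.o_one]
  | succ n ih =>
    rw [pow_succ, v.mul' _ _ (pow_ne_zero n hx) hx, ih]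
    push_cast
    ring

theorem o_pi_zpow (n : ℤ) : v.o (v.π ^ n) = n := by
  obtain ⟨k, rfl | rfl⟩ := n.eq_nat_or_neg
  · rw [zpow_natCast, v.o_pow _ v.π0, v.oπ, mul_one]
  · rw [zpow_neg, zpow_natCast, v.o_inv _ (pow_ne_zero k v.π0), v.o_pow _ v.π0, v.oπ, mul_one]

theorem ge_zero (n : ℤ) : v.ge n 0 := Or.inl rfl

theorem ge_iff {n : ℤ} {x : L} (hx : x ≠ 0) : v.ge n x ↔ n ≤ v.o x := by
  constructor
  · rintro (h | h)
    · exact absurd h hx
    · exact h
  · exact Or.inr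

theorem ge_mono {m n : ℤ} (h : m ≤ n) {x : L} (hx : v.ge n x) : v.ge m x := by
  rcases hx with hx | hx
  · exact Or.inl hx
  · exact Or.inr (h.trans hx)

theorem ge_neg {n : ℤ} {x : L} (hx : v.ge n x) : v.ge n (-x) := by
  by_cases h0 : x = 0
  · rw [h0, neg_zero]
    exact v.ge_zero n
  · rw [v.ge_iff h0] at hx
    exact Or.inr (by rwa [v.o_neg x h0])

theorem ge_add {n : ℤ} {x y : L} (hx : v.ge n x) (hy : v.ge n y) : v.ge n (x + y) := by
  by_cases h0 : x = 0
  · rwa [h0, zero_add]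
  by_cases h1 : y = 0
  · rwa [h1, add_zero]
  by_cases h2 : x + y = 0
  · exact Or.inl h2
  rw [v.ge_iff h0] at hx
  rw [v.ge_iff h1] at hy
  exact Or.inr ((le_min hx hy).trans (v.add' x y h0 h1 h2))

theorem ge_sub {n : ℤ} {x y : L} (hx : v.ge n x) (hy : v.ge n y) : v.ge n (x - y) := by
  rw [sub_eq_add_neg]
  exact v.ge_add hx (v.ge_neg hy)

theorem ge_mul {m n : ℤ} {x y : L} (hx : v.ge m x) (hy : v.ge n y) : v.ge (m + n) (x * y) := by
  by_cases h0 : x = 0
  · rw [h0, zero_mul]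
    exact v.ge_zero _
  by_cases h1 : y = 0
  · rw [h1, mul_zero]
    exact v.ge_zero _
  rw [v.ge_iff h0] at hx
  rw [v.ge_iff h1] at hy
  exact Or.inr (by rw [v.mul' x y h0 h1]; linarith)

theorem ge_one : v.ge 0 1 := Or.inr (by rw [v.o_one])

theorem ge_pi_mul (k j : ℤ) (x : L) : v.ge k (v.π ^ j * x) ↔ v.ge (k - j) x := by
  have hp : v.π ^ j ≠ 0 := zpow_ne_zero j v.π0
  by_cases h0 : x = 0
  · rw [h0, mul_zero]
    exact ⟨fun _ => v.ge_zero _, fun _ => v.ge_zero _⟩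
  · rw [v.ge_iff h0, v.ge_iff (mul_ne_zero hp h0), v.mul' _ _ hp h0, v.o_pi_zpow]
    constructor <;> intro h <;> linarith

theorem ge_pow {x : L} (hx : v.ge 0 x) (n : ℕ) : v.ge 0 (x ^ n) := by
  induction n with
  | zero => rw [pow_zero]; exact v.ge_one
  | succ n ih =>
    rw [pow_succ]
    have := v.ge_mul ih hx
    rwa [add_zero] at this

theorem ge_sum {ι : Type*} (s : Finset ι) (f : ι → L) {n : ℤ} (h : ∀ i ∈ s, v.ge n (f i)) :
    v.ge n (∑ i ∈ s, f i) := by
  classical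
  induction s using Finset.induction_on with
  | empty => exact v.ge_zero n
  | insert a s ha ih =>
    rw [Finset.sum_insert ha]
    exact v.ge_add (h a (Finset.mem_insert_self a s))
      (ih fun i hi => h i (Finset.mem_insert_of_mem hi))

end DV

end Pool.Agent.Lib.MP_551055_al.BT
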