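import Mathlib

/-!
# Trees from a parent map
-/

set_option autoImplicit false

namespace Pool.Agent.Lib.MP_551055_al.BT

universe u

/-- A graph given by a parent map is a tree. -/
theorem isTree_of_parent {V : Type u} (T : SimpleGraph V) (p : V → V) (h : V → ℤ)
    (hp : ∀ x, h (p x) = h x - 1) (hadj : ∀ x y, T.Adj x y ↔ p x = y ∨ p y = x) (x₀ : V)
    (hc : ∀ x y, ∃ m n : ℕ, p^[m] x = p^[n] y) : T.IsTree := by
  have hit : ∀ (m : ℕ) (x : V), h (p^[m] x) = h x - m := by
    intro m
    induction m with
    | zero => intro x; simp
    | succ m ih =>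
      intro x
      rw [Function.iterate_succ_apply', hp, ih]
      push_cast
      ring
  have hreach : ∀ (m : ℕ) (x : V), T.Reachable x (p^[m] x) := by
    intro m
    induction m with
    | zero => intro x; exact SimpleGraph.Reachable.refl _
    | succ m ih =>
      intro x
      rw [Function.iterate_succ_apply']
      exact (ih x).trans (SimpleGraph.Adj.reachable ((hadj _ _).2 (Or.inl rfl)))
  rw [SimpleGraph.isTree_iff]
  refine ⟨?_, ?_⟩
  · have : Nonempty V := ⟨x₀⟩
    refine SimpleGraph.Connected.mk fun x y => ?_
    obtain ⟨m, n, e⟩ := hc x y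
    have h1 := hreach m x
    rw [e] at h1
    exact h1.trans (hreach n y).symm
  · rw [SimpleGraph.isAcyclic_iff_forall_adj_isBridge]
    -- it is enough to treat the edges from `x` to `p x`
    have key : ∀ x : V, T.Adj x (p x) → T.IsBridge s(x, p x) := by
      intro x _
      rw [SimpleGraph.isBridge_iff]
      intro hr
      obtain ⟨w⟩ := hr
      have hcl : ∀ (a b : V) (_ : (T.deleteEdges {s(x, p x)}).Walk a b),
          (∃ m : ℕ, p^[m] a = x) → ∃ m : ℕ, p^[m] b = x := by
        intro a b w
        induction w with
        | nil => exact id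
        | cons hab _ ih =>
          rename_i a b c _
          intro hm
          refine ih ?_
          obtain ⟨m, hm⟩ := hm
          rw [SimpleGraph.deleteEdges_adj] at hab
          obtain ⟨hab, hne⟩ := hab
          rcases (hadj a b).1 hab with h1 | h1
          · rcases m with _ | m
            · exact absurd (by
                rw [Function.iterate_zero, id] at hm
                rw [← hm, h1]
                rfl) hne
            · exact ⟨m, by rw [← h1, ← Function.iterate_succ_apply]; exact hm⟩
          · exact ⟨m + 1, by rw [Function.iterate_succ_apply, h1]; exact hm⟩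
      obtain ⟨m, hm⟩ := hcl x (p x) w ⟨0, rfl⟩
      have h1 := hit (m + 1) x
      rw [Function.iterate_succ_apply, hm] at h1
      push_cast at h1
      linarith
    intro x y hxy
    rcases (hadj x y).1 hxy with h1 | h1
    · rw [← h1]
      exact key x (h1 ▸ hxy)
    · rw [← h1, Sym2.eq_swap]
      exact key y (h1 ▸ hxy.symm)

end Pool.Agent.Lib.MP_551055_al.BT
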