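import Mathlib
import Pool.Agent.Lib.MP_551055_al.Trim.BT.DV
import Pool.Agent.Lib.MP_551055_al.Trim.BT.TreeCrit

/-!
# The tree of `GL₂` of a field with a discrete valuation
-/

set_option autoImplicit false

namespace Pool.Agent.Lib.MP_551055_al.BT

universe u

/-- The group `GL₂`. -/
abbrev GL2 (L : Type u) [Field L] := Matrix.GeneralLinearGroup (Fin 2) L

namespace DV

variable {L : Type u} [Field L] (v : DV L)

/-- The determinant of `g` has order `2 n + m`, and the entries have order at least `n`. -/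
def D (m : ℤ) (g : GL2 L) : Prop :=
  ∃ n : ℤ, (∀ i j, v.ge n (g.val i j)) ∧ v.o g.val.det = 2 * n + m

theorem det_ne (g : GL2 L) : g.val.det ≠ 0 := by
  have h := g.isUnit
  rw [Matrix.isUnit_iff_isUnit_det] at h
  exact h.ne_zero

variable {v} in
theorem D.mul {m m' : ℤ} {g h : GL2 L} (hg : v.D m g) (hh : v.D m' h) :
    v.D (m + m') (g * h) := by
  obtain ⟨n, h1, h2⟩ := hg
  obtain ⟨n', h1', h2'⟩ := hh
  refine ⟨n + n', fun i j => ?_, ?_⟩
  · rw [Units.val_mul, Matrix.mul_apply, Fin.sum_univ_two]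
    exact v.ge_add (v.ge_mul (h1 _ _) (h1' _ _)) (v.ge_mul (h1 _ _) (h1' _ _))
  · rw [Units.val_mul, Matrix.det_mul, v.mul' _ _ (det_ne g) (det_ne h), h2, h2']
    ring

theorem inv_val (g : GL2 L) :
    (g⁻¹).val = g.val.det⁻¹ • !![g.val 1 1, -g.val 0 1; -g.val 1 0, g.val 0 0] := by
  rw [Matrix.coe_units_inv, Matrix.inv_def, Matrix.adjugate_fin_two, Ring.inverse_eq_inv']

variable {v} in
theorem D.inv {m : ℤ} {g : GL2 L} (hg : v.D m g) : v.D m g⁻¹ := by
  obtain ⟨n, h1, h2⟩ := hg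
  have hdet := det_ne g
  have hi : v.ge (-(2 * n + m)) (g.val.det⁻¹) := Or.inr (by rw [v.o_inv _ hdet, h2])
  refine ⟨-n - m, fun i j => ?_, ?_⟩
  · rw [inv_val]
    have e : -n - m = -(2 * n + m) + n := by ring
    rw [e]
    fin_cases i <;> fin_cases j
    · exact v.ge_mul hi (h1 1 1)
    · exact v.ge_mul hi (v.ge_neg (h1 0 1))
    · exact v.ge_mul hi (v.ge_neg (h1 1 0))
    · exact v.ge_mul hi (h1 0 0)
  · have h3 : (g⁻¹).val.det = g.val.det⁻¹ := by
      have h4 : (g⁻¹).val.det * g.val.det = 1 := by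
        rw [← Matrix.det_mul, ← Units.val_mul, inv_mul_cancel, Units.val_one, Matrix.det_one]
      exact eq_inv_of_mul_eq_one_left h4
    rw [h3, v.o_inv _ hdet, h2]
    ring

theorem D_one : v.D 0 (1 : GL2 L) := by
  refine ⟨0, fun i j => ?_, ?_⟩
  · rw [Units.val_one, Matrix.one_apply]
    split_ifs
    · exact v.ge_one
    · exact v.ge_zero 0
  · rw [Units.val_one, Matrix.det_one, v.o_one]
    ring

/-- The stabiliser of the standard vertex. -/
def H : Subgroup (GL2 L) where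
  carrier := {g | v.D 0 g}
  mul_mem' := fun {a b} ha hb => by
    have := D.mul (v := v) ha hb
    rwa [add_zero] at this
  one_mem' := v.D_one
  inv_mem' := fun {a} ha => D.inv (v := v) ha

theorem mem_H {g : GL2 L} : g ∈ v.H ↔ v.D 0 g := Iff.rfl

/-- The vertices of the tree. -/
abbrev Vt := GL2 L ⧸ v.H

/-- Neighbours. -/
def adj (x y : v.Vt) : Prop := v.D 1 (x.out⁻¹ * y.out)

theorem adj_mk (g h : GL2 L) : v.adj (g : v.Vt) (h : v.Vt) ↔ v.D 1 (g⁻¹ * h) := by
  obtain ⟨a, ha⟩ := QuotientGroup.mk_out_eq_mul v.H g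
  obtain ⟨b, hb⟩ := QuotientGroup.mk_out_eq_mul v.H h
  have ha' : v.D 0 (a : GL2 L) := a.2
  have hb' : v.D 0 (b : GL2 L) := b.2
  unfold adj
  rw [ha, hb]
  constructor
  · intro h1
    have h2 := (ha'.mul h1).mul hb'.inv
    have e : (a : GL2 L) * ((g * a)⁻¹ * (h * b)) * (b : GL2 L)⁻¹ = g⁻¹ * h := by group
    rw [e] at h2
    simpa using h2
  · intro h1
    have h2 := (ha'.inv.mul h1).mul hb'
    have e : (a : GL2 L)⁻¹ * (g⁻¹ * h) * b = (g * a)⁻¹ * (h * b) := by group
    rw [e] at h2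
    simpa using h2

theorem D_odd {m : ℤ} {g : GL2 L} (h : v.D m g) : ∃ n : ℤ, v.o g.val.det = 2 * n + m := by
  obtain ⟨n, -, h⟩ := h
  exact ⟨n, h⟩

/-- The tree. -/
def T : SimpleGraph v.Vt where
  Adj := v.adj
  symm := ⟨by
    intro x y h
    have h1 := D.inv h
    rw [mul_inv_rev, inv_inv] at h1
    exact h1⟩
  loopless := ⟨by
    intro x h
    obtain ⟨n, hn⟩ := v.D_odd h
    rw [inv_mul_cancel, Units.val_one, Matrix.det_one, v.o_one] at hn
    omega⟩

theorem T_adj (x y : v.Vt) : v.T.Adj x y ↔ v.adj x y := Iff.rfl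

theorem adj_smul (g : GL2 L) (x y : v.Vt) (h : v.T.Adj x y) : v.T.Adj (g • x) (g • y) := by
  induction x using QuotientGroup.induction_on with | H a => ?_
  induction y using QuotientGroup.induction_on with | H b => ?_
  rw [T_adj, adj_mk] at h
  have e1 : g • ((a : GL2 L) : v.Vt) = ((g * a : GL2 L) : v.Vt) := rfl
  have e2 : g • ((b : GL2 L) : v.Vt) = ((g * b : GL2 L) : v.Vt) := rfl
  rw [T_adj, e1, e2, adj_mk]
  have e : (g * a)⁻¹ * (g * b) = a⁻¹ * b := by group
  rw [e]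
  exact h

theorem det_conj (a g : GL2 L) : (a⁻¹ * g * a).val.det = g.val.det := by
  rw [Units.val_mul, Units.val_mul, Matrix.det_mul, Matrix.det_mul, mul_comm, ← mul_assoc,
    ← Matrix.det_mul, ← Units.val_mul, mul_inv_cancel, Units.val_one, Matrix.det_one, one_mul]

theorem trace_conj (a g : GL2 L) : (a⁻¹ * g * a).val.trace = g.val.trace := by
  rw [Units.val_mul, Matrix.trace_mul_comm, ← Units.val_mul]
  congr 2
  group

/-- Elements with determinant of even order do not move a vertex to a neighbour. -/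
theorem no_inv (g : GL2 L) (hg : Even (v.o g.val.det)) (x : v.Vt) : ¬ v.T.Adj x (g • x) := by
  induction x using QuotientGroup.induction_on with | H a => ?_
  have e1 : g • ((a : GL2 L) : v.Vt) = ((g * a : GL2 L) : v.Vt) := rfl
  rw [T_adj, e1, adj_mk]
  intro h
  obtain ⟨n, hn⟩ := v.D_odd h
  rw [← mul_assoc, det_conj] at hn
  obtain ⟨k, hk⟩ := hg
  omega

/-- The trace of an element with a fixed vertex. -/
theorem trace_ge (g : GL2 L) (hg : v.o g.val.det = 0) (x : v.Vt) (hx : g • x = x) :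
    v.ge 0 g.val.trace := by
  induction x using QuotientGroup.induction_on with | H a => ?_
  have e1 : g • ((a : GL2 L) : v.Vt) = ((g * a : GL2 L) : v.Vt) := rfl
  rw [e1] at hx
  have h1 : a⁻¹ * (g * a) ∈ v.H := QuotientGroup.eq.1 hx.symm
  rw [mem_H, ← mul_assoc] at h1
  obtain ⟨n, h2, h3⟩ := h1
  rw [det_conj, hg] at h3
  have hn : n = 0 := by omega
  subst hn
  rw [← trace_conj a g, Matrix.trace_fin_two]
  exact v.ge_add (h2 0 0) (h2 1 1)

/-! ### coordinates -/

/-- The matrix with rows `(π ^ n, a)` and `(0, 1)`. -/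
noncomputable def M (n : ℤ) (a : L) : GL2 L :=
  Matrix.GeneralLinearGroup.mkOfDetNeZero !![v.π ^ n, a; 0, 1] (by
    rw [Matrix.det_fin_two_of, mul_one, mul_zero, sub_zero]
    exact zpow_ne_zero n v.π0)

theorem M_val (n : ℤ) (a : L) : (v.M n a).val = !![v.π ^ n, a; 0, 1] := rfl

theorem M_det (n : ℤ) (a : L) : (v.M n a).val.det = v.π ^ n := by
  rw [M_val, Matrix.det_fin_two_of, mul_one, mul_zero, sub_zero]

theorem M_mul (n k : ℤ) (a c : L) : v.M n a * v.M k c = v.M (n + k) (a + v.π ^ n * c) := by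
  refine Units.ext ?_
  rw [Units.val_mul, M_val, M_val, M_val, Matrix.mul_fin_two, zpow_add₀ v.π0]
  ext i j
  fin_cases i <;> fin_cases j <;> simp [add_comm]

theorem M_zero : v.M 0 0 = 1 := by
  refine Units.ext ?_
  rw [M_val, Units.val_one, Matrix.one_fin_two, zpow_zero]

theorem M_inv_mul (n k : ℤ) (a c : L) :
    (v.M n a)⁻¹ * v.M k c = v.M (k - n) (v.π ^ (-n) * (c - a)) := by
  rw [inv_mul_eq_iff_eq_mul, M_mul]
  congr 1
  · ring
  · rw [← mul_assoc, ← zpow_add₀ v.π0, add_neg_cancel, zpow_zero, one_mul]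
    ring

theorem D_M {m k : ℤ} {c : L} :
    v.D m (v.M k c) ↔ ∃ n : ℤ, n ≤ k ∧ n ≤ 0 ∧ v.ge n c ∧ k = 2 * n + m := by
  unfold D
  refine exists_congr fun n => ?_
  rw [M_det, v.o_pi_zpow]
  constructor
  · rintro ⟨h1, h2⟩
    have h3 := h1 0 0
    have h4 := h1 0 1
    have h5 := h1 1 1
    rw [M_val] at h3 h4 h5
    have h3' : v.ge n (v.π ^ k) := h3
    have h5' : v.ge n (1 : L) := h5
    rw [v.ge_iff (zpow_ne_zero k v.π0), v.o_pi_zpow] at h3'
    rw [v.ge_iff one_ne_zero, v.o_one] at h5'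
    exact ⟨h3', h5', h4, h2⟩
  · rintro ⟨h1, h2, h3, h4⟩
    refine ⟨fun i j => ?_, h4⟩
    rw [M_val]
    fin_cases i <;> fin_cases j
    · exact Or.inr (by
        show n ≤ v.o (v.π ^ k)
        rw [v.o_pi_zpow]
        exact h1)
    · exact h3
    · exact v.ge_zero n
    · exact Or.inr (by
        show n ≤ v.o (1 : L)
        rw [v.o_one]
        exact h2)

variable {v} in
theorem ge_symm {n : ℤ} {x y : L} (h : v.ge n (x - y)) : v.ge n (y - x) := by
  have := v.ge_neg h
  rwa [neg_sub] at this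

/-- Vertices in coordinates. -/
theorem mk_M_eq {n k : ℤ} {a c : L} :
    ((v.M n a : GL2 L) : v.Vt) = ((v.M k c : GL2 L) : v.Vt) ↔ k = n ∧ v.ge n (c - a) := by
  rw [QuotientGroup.eq, mem_H, M_inv_mul, D_M]
  constructor
  · rintro ⟨m, h1, h2, h3, h4⟩
    have hm : m = 0 := by omega
    subst hm
    have hk : k = n := by omega
    refine ⟨hk, ?_⟩
    rw [ge_pi_mul] at h3
    simpa using h3
  · rintro ⟨h1, h2⟩
    refine ⟨0, by omega, le_refl 0, ?_, by omega⟩
    rw [ge_pi_mul]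
    simpa using h2

/-- Neighbours in coordinates. -/
theorem adj_M {n k : ℤ} {a c : L} :
    v.T.Adj ((v.M n a : GL2 L) : v.Vt) ((v.M k c : GL2 L) : v.Vt) ↔
      (k = n + 1 ∧ v.ge n (c - a)) ∨ (k = n - 1 ∧ v.ge k (c - a)) := by
  rw [T_adj, adj_mk, M_inv_mul, D_M]
  constructor
  · rintro ⟨m, h1, h2, h3, h4⟩
    rw [ge_pi_mul] at h3
    have hm : m = 0 ∨ m = -1 := by omega
    rcases hm with rfl | rfl
    · left
      refine ⟨by omega, ?_⟩
      simpa using h3
    · right
      have hk : k = n - 1 := by omega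
      refine ⟨hk, ?_⟩
      have e : (-1 : ℤ) - -n = k := by omega
      rwa [e] at h3
  · rintro (⟨h1, h2⟩ | ⟨h1, h2⟩)
    · refine ⟨0, by omega, le_refl 0, ?_, by omega⟩
      rw [ge_pi_mul]
      simpa using h2
    · refine ⟨-1, by omega, by omega, ?_, by omega⟩
      rw [ge_pi_mul]
      have e : (-1 : ℤ) - -n = k := by omega
      rwa [e]

/-- Every vertex has coordinates. -/
theorem exists_M (x : v.Vt) : ∃ (n : ℤ) (a : L), x = ((v.M n a : GL2 L) : v.Vt) := by
  induction x using QuotientGroup.induction_on with | H g => ?_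
  have hΔ := det_ne g
  have hdet : g.val.det = g.val 0 0 * g.val 1 1 - g.val 0 1 * g.val 1 0 := Matrix.det_fin_two _
  -- the product with the inverse matrix
  have hprod : ∀ (n : ℤ) (a : L), ((v.M n a)⁻¹ * g).val =
      !![v.π ^ (-n) * (g.val 0 0 - a * g.val 1 0), v.π ^ (-n) * (g.val 0 1 - a * g.val 1 1);
        g.val 1 0, g.val 1 1] := by
    intro n a
    have h1 : (v.M n a)⁻¹ = v.M (-n) (-(v.π ^ (-n) * a)) := by
      rw [inv_eq_iff_mul_eq_one, M_mul, ← M_zero v]
      congr 1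
      · ring
      · rw [mul_neg, ← mul_assoc, ← zpow_add₀ v.π0, add_neg_cancel, zpow_zero, one_mul,
          add_neg_cancel]
    rw [Units.val_mul, h1, M_val]
    ext i j
    fin_cases i <;> fin_cases j <;> simp [Matrix.mul_apply, Fin.sum_univ_two] <;> ring
  have hdetp : ∀ (n : ℤ) (a : L), v.o ((v.M n a)⁻¹ * g).val.det = -n + v.o g.val.det := by
    intro n a
    have h1 : (v.M n a)⁻¹ = v.M (-n) (-(v.π ^ (-n) * a)) := by
      rw [inv_eq_iff_mul_eq_one, M_mul, ← M_zero v]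
      congr 1
      · ring
      · rw [mul_neg, ← mul_assoc, ← zpow_add₀ v.π0, add_neg_cancel, zpow_zero, one_mul,
          add_neg_cancel]
    rw [Units.val_mul, Matrix.det_mul, h1, M_det, v.mul' _ _ (zpow_ne_zero _ v.π0) hΔ,
      v.o_pi_zpow]
  by_cases hc : g.val 1 1 ≠ 0 ∧ v.ge (v.o (g.val 1 1)) (g.val 1 0)
  · obtain ⟨hD, hC⟩ := hc
    refine ⟨v.o g.val.det - 2 * v.o (g.val 1 1), g.val 0 1 / g.val 1 1, Eq.symm ?_⟩
    rw [QuotientGroup.eq, mem_H]
    refine ⟨v.o (g.val 1 1), ?_, ?_⟩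
    · rw [hprod, Fin.forall_fin_two, Fin.forall_fin_two, Fin.forall_fin_two]
      refine ⟨⟨?_, ?_⟩, ?_, ?_⟩
      · show v.ge _ (v.π ^ (_ : ℤ) * (g.val 0 0 - g.val 0 1 / g.val 1 1 * g.val 1 0))
        have e : g.val 0 0 - g.val 0 1 / g.val 1 1 * g.val 1 0 = g.val.det / g.val 1 1 := by
          rw [hdet]
          field_simp
        rw [ge_pi_mul, e]
        exact Or.inr (by rw [v.o_div _ _ hΔ hD]; linarith)
      · show v.ge _ (v.π ^ (_ : ℤ) * (g.val 0 1 - g.val 0 1 / g.val 1 1 * g.val 1 1))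
        rw [div_mul_cancel₀ _ hD, sub_self, mul_zero]
        exact v.ge_zero _
      · exact hC
      · exact Or.inr (le_refl _)
    · rw [hdetp]
      ring
  · have hC : g.val 1 0 ≠ 0 ∧ v.ge (v.o (g.val 1 0)) (g.val 1 1) := by
      by_cases hD : g.val 1 1 = 0
      · refine ⟨fun hC => hΔ ?_, Or.inl hD⟩
        rw [hdet, hC, hD]
        ring
      · have h1 : ¬ v.ge (v.o (g.val 1 1)) (g.val 1 0) := fun h => hc ⟨hD, h⟩
        have hC : g.val 1 0 ≠ 0 := fun h => h1 (Or.inl h)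
        rw [v.ge_iff hC, not_le] at h1
        exact ⟨hC, Or.inr h1.le⟩
    obtain ⟨hC, hD⟩ := hC
    refine ⟨v.o g.val.det - 2 * v.o (g.val 1 0), g.val 0 0 / g.val 1 0, Eq.symm ?_⟩
    rw [QuotientGroup.eq, mem_H]
    refine ⟨v.o (g.val 1 0), ?_, ?_⟩
    · rw [hprod, Fin.forall_fin_two, Fin.forall_fin_two, Fin.forall_fin_two]
      refine ⟨⟨?_, ?_⟩, ?_, ?_⟩
      · show v.ge _ (v.π ^ (_ : ℤ) * (g.val 0 0 - g.val 0 0 / g.val 1 0 * g.val 1 0))
        rw [div_mul_cancel₀ _ hC, sub_self, mul_zero]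
        exact v.ge_zero _
      · show v.ge _ (v.π ^ (_ : ℤ) * (g.val 0 1 - g.val 0 0 / g.val 1 0 * g.val 1 1))
        have e : g.val 0 1 - g.val 0 0 / g.val 1 0 * g.val 1 1 = -(g.val.det / g.val 1 0) := by
          rw [hdet]
          field_simp
          ring
        rw [ge_pi_mul, e]
        refine v.ge_neg (Or.inr ?_)
        rw [v.o_div _ _ hΔ hC]
        linarith
      · exact Or.inr (le_refl _)
      · exact hD
    · rw [hdetp]
      ring

/-- The exponent of a vertex. -/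
noncomputable def cn (x : v.Vt) : ℤ := (v.exists_M x).choose

/-- The second coordinate of a vertex. -/
noncomputable def ca (x : v.Vt) : L := (v.exists_M x).choose_spec.choose

theorem coord (x : v.Vt) : x = ((v.M (v.cn x) (v.ca x) : GL2 L) : v.Vt) :=
  (v.exists_M x).choose_spec.choose_spec

/-- The parent of a vertex. -/
noncomputable def par (x : v.Vt) : v.Vt := ((v.M (v.cn x - 1) (v.ca x) : GL2 L) : v.Vt)

theorem coord_M (n : ℤ) (a : L) : v.cn ((v.M n a : GL2 L) : v.Vt) = n ∧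
    v.ge n (v.ca ((v.M n a : GL2 L) : v.Vt) - a) := by
  have h := v.coord ((v.M n a : GL2 L) : v.Vt)
  rw [mk_M_eq] at h
  exact h

theorem par_M (n : ℤ) (a : L) :
    v.par ((v.M n a : GL2 L) : v.Vt) = ((v.M (n - 1) a : GL2 L) : v.Vt) := by
  obtain ⟨h1, h2⟩ := v.coord_M n a
  unfold par
  rw [h1, mk_M_eq]
  exact ⟨rfl, v.ge_mono (by omega) (ge_symm h2)⟩

theorem par_iterate (m : ℕ) (n : ℤ) (a : L) :
    v.par^[m] ((v.M n a : GL2 L) : v.Vt) = ((v.M (n - m) a : GL2 L) : v.Vt) := by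
  induction m generalizing n with
  | zero => simp
  | succ m ih =>
    rw [Function.iterate_succ_apply, par_M, ih]
    congr 2
    push_cast
    ring

/-- The graph is a tree. -/
theorem T_isTree : v.T.IsTree := by
  refine isTree_of_parent v.T v.par v.cn (fun x => ?_) (fun x y => ?_) ((1 : GL2 L) : v.Vt)
    fun x y => ?_
  · unfold par
    exact (v.coord_M _ _).1
  · rw [v.coord x, v.coord y]
    generalize v.cn x = n
    generalize v.ca x = a
    generalize v.cn y = k
    generalize v.ca y = c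
    rw [adj_M, par_M, par_M, mk_M_eq, mk_M_eq]
    constructor
    · rintro (⟨h1, h2⟩ | ⟨h1, h2⟩)
      · right
        exact ⟨by omega, v.ge_mono (by omega) (ge_symm h2)⟩
      · left
        exact ⟨h1, v.ge_mono (by omega) h2⟩
    · rintro (⟨h1, h2⟩ | ⟨h1, h2⟩)
      · right
        exact ⟨h1, v.ge_mono (by omega) h2⟩
      · left
        exact ⟨by omega, v.ge_mono (by omega) (ge_symm h2)⟩
  · rw [v.coord x, v.coord y]
    generalize v.cn x = n
    generalize v.ca x = a
    generalize v.cn y = k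
    generalize v.ca y = c
    obtain ⟨N, hN1, hN2, hN3⟩ : ∃ N : ℤ, N ≤ n ∧ N ≤ k ∧ v.ge N (c - a) := by
      refine ⟨min (min n k) (v.o (c - a)), ?_, ?_, Or.inr (min_le_right _ _)⟩
      · exact (min_le_left _ _).trans (min_le_left _ _)
      · exact (min_le_left _ _).trans (min_le_right _ _)
    refine ⟨(n - N).toNat, (k - N).toNat, ?_⟩
    rw [par_iterate, par_iterate, Int.toNat_of_nonneg (by omega), Int.toNat_of_nonneg (by omega),
      mk_M_eq]
    refine ⟨by omega, ?_⟩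
    have e : n - (n - N) = N := by ring
    rw [e]
    exact hN3

end DV

end Pool.Agent.Lib.MP_551055_al.BT
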