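import Mathlib
import Pool.Agent.Lib.MP_551055_al.Trim.BT.Tree

/-!
# Matrices with algebraic trace and determinant, positive characteristic
-/

set_option autoImplicit false

namespace Pool.Agent.Lib.MP_551055_al.BT

universe u

/-- The square of a matrix. -/
theorem sq_eq {L : Type u} [Field L] (g : Matrix (Fin 2) (Fin 2) L) :
    g * g = g.trace • g - g.det • (1 : Matrix (Fin 2) (Fin 2) L) := by
  rw [Matrix.trace_fin_two, Matrix.det_fin_two]
  ext i j
  fin_cases i <;> fin_cases j <;> simp [Matrix.mul_apply, Fin.sum_univ_two] <;> ring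

/-- A matrix with algebraic trace and determinant has finite order. -/
theorem isOfFinOrder_of_algebraic {L : Type u} [Field L] (p : ℕ) [Fact p.Prime]
    [Algebra (ZMod p) L] (g : GL2 L) (ht : IsIntegral (ZMod p) g.val.trace)
    (hd : IsIntegral (ZMod p) g.val.det) : IsOfFinOrder g := by
  set A : Subalgebra (ZMod p) L := Algebra.adjoin (ZMod p) {g.val.trace, g.val.det} with hA
  have hfg : A.toSubmodule.FG := fg_adjoin_of_finite (Set.toFinite _) (by
    rintro x (rfl | rfl)
    · exact ht
    · exact hd)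
  have hfin : Module.Finite (ZMod p) A := Module.Finite.iff_fg.2 hfg
  have hA' : Finite A := Module.finite_of_finite (ZMod p)
  have ht' : g.val.trace ∈ A := Algebra.subset_adjoin (Or.inl rfl)
  have hd' : g.val.det ∈ A := Algebra.subset_adjoin (Or.inr rfl)
  set S : Set (Matrix (Fin 2) (Fin 2) L) :=
    Set.range fun x : A × A => (x.1 : L) • (1 : Matrix (Fin 2) (Fin 2) L) + (x.2 : L) • g.val
    with hS
  have hSf : S.Finite := Set.finite_range _
  have hpow : ∀ n : ℕ, g.val ^ n ∈ S := by
    intro n
    induction n with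
    | zero => exact ⟨(1, 0), by simp⟩
    | succ n ih =>
      obtain ⟨⟨a, b⟩, hab⟩ := ih
      refine ⟨(-(b * ⟨_, hd'⟩), a + b * ⟨_, ht'⟩), ?_⟩
      rw [pow_succ, ← hab]
      simp only [add_mul, smul_mul_assoc, one_mul, sq_eq]
      push_cast
      simp only [smul_sub, smul_smul, add_smul, neg_smul]
      abel
  rw [← finite_powers]
  refine Set.Finite.of_finite_image (f := fun h : GL2 L => h.val) (hSf.subset ?_)
    fun a _ b _ h => Units.ext h
  rintro _ ⟨_, ⟨n, rfl⟩, rfl⟩
  show (g ^ n).val ∈ S
  rw [Units.val_pow_eq_pow_val]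
  exact hpow n

end Pool.Agent.Lib.MP_551055_al.BT
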