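import Mathlib
import Pool.Agent.Lib.MP_551055_al.Trim.BT.DV

/-!
# Places of function fields of one variable
-/

set_option autoImplicit false

namespace IsDedekindDomain
end IsDedekindDomain

namespace Pool.Agent.Lib.MP_551055_al.BT

open IsDedekindDomain

universe u

/-- The discrete valuation of a maximal ideal of a Dedekind domain. -/
noncomputable def DV.ofSpec {R : Type*} [CommRing R] [IsDedekindDomain R] {K : Type u} [Field K]
    [Algebra R K] [IsFractionRing R K] (w : HeightOneSpectrum R) : DV K where
  o x := -WithZero.log (w.valuation K x)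
  mul' x y hx hy := by
    rw [map_mul, WithZero.log_mul ((Valuation.ne_zero_iff _).2 hx) ((Valuation.ne_zero_iff _).2 hy)]
    ring
  add' x y hx hy hxy := by
    have hx' := (Valuation.ne_zero_iff (w.valuation K)).2 hx
    have hy' := (Valuation.ne_zero_iff (w.valuation K)).2 hy
    have hxy' := (Valuation.ne_zero_iff (w.valuation K)).2 hxy
    rcases le_max_iff.1 ((w.valuation K).map_add x y) with h | h
    · refine (min_le_left _ _).trans (neg_le_neg ?_)
      exact (WithZero.log_le_log hxy' hx').2 h
    · refine (min_le_right _ _).trans (neg_le_neg ?_)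
      exact (WithZero.log_le_log hxy' hy').2 h
  π := (w.valuation_exists_uniformizer K).choose
  π0 := by
    intro h
    have h1 := (w.valuation_exists_uniformizer K).choose_spec
    rw [h, map_zero] at h1
    exact WithZero.exp_ne_zero h1.symm
  oπ := by
    rw [(w.valuation_exists_uniformizer K).choose_spec, WithZero.log_exp, neg_neg]

theorem DV.ge_ofSpec {R : Type*} [CommRing R] [IsDedekindDomain R] {K : Type u} [Field K]
    [Algebra R K] [IsFractionRing R K] (w : HeightOneSpectrum R) (x : K) :
    (DV.ofSpec (K := K) w).ge 0 x ↔ w.valuation K x ≤ 1 := by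
  by_cases hx : x = 0
  · rw [hx]
    exact ⟨fun _ => by rw [map_zero]; exact zero_le_one, fun _ => DV.ge_zero _ _⟩
  · rw [DV.ge_iff _ hx]
    show 0 ≤ -WithZero.log (w.valuation K x) ↔ _
    have hx' := (Valuation.ne_zero_iff (w.valuation K)).2 hx
    rw [← WithZero.log_le_log hx' one_ne_zero, WithZero.log_one]
    exact neg_nonneg

/-- The places at which one of finitely many elements is not integral. -/
theorem finite_poles {R : Type*} [CommRing R] [IsDedekindDomain R] {K : Type u} [Field K]
    [Algebra R K] [IsFractionRing R K] (S : Finset K) :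
    {w : HeightOneSpectrum R | ∃ s ∈ S, 1 < w.valuation K s}.Finite := by
  have h : {w : HeightOneSpectrum R | ∃ s ∈ S, 1 < w.valuation K s} =
      ⋃ s ∈ S, HeightOneSpectrum.Support R s := by
    ext w
    simp [HeightOneSpectrum.Support]
  rw [h]
  exact Set.Finite.biUnion S.finite_toSet fun s _ => HeightOneSpectrum.Support.finite R s

/-- An element which is integral over `F[x]` and over `F[x⁻¹]` is algebraic over `F`. -/
theorem isIntegral_of_both {F L : Type*} [Field F] [Field L] [Algebra F L] (x a : L)
    (h1 : IsIntegral (Algebra.adjoin F {x}) a) (h2 : IsIntegral (Algebra.adjoin F {x⁻¹}) a) :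
    IsIntegral F a := by
  by_contra hn
  have hni : a ∉ (integralClosure F L).toSubring := hn
  have hcl : IsIntegrallyClosedIn (integralClosure F L).toSubring L :=
    inferInstanceAs (IsIntegrallyClosedIn (integralClosure F L) L)
  obtain ⟨V, hV, haV⟩ := Subring.exists_le_valuationSubring_of_isIntegrallyClosedIn hni
  have hF : ∀ c : F, algebraMap F L c ∈ V := fun c => hV (by
    show algebraMap F L c ∈ integralClosure F L
    exact isIntegral_algebraMap)
  -- elements integral over `F[y]`, `y ∈ V`, are in `V`
  have key : ∀ y : L, y ∈ V → IsIntegral (Algebra.adjoin F {y}) a → a ∈ V := by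
    intro y hy ha
    have hle : ∀ z ∈ Algebra.adjoin F {y}, z ∈ V := by
      intro z hz
      induction hz using Algebra.adjoin_induction with
      | mem z hz => rw [Set.mem_singleton_iff.1 hz]; exact hy
      | algebraMap c => exact hF c
      | add a b _ _ ha hb => exact add_mem ha hb
      | mul a b _ _ ha hb => exact mul_mem ha hb
    obtain ⟨P, hP, hPa⟩ := ha
    let φ : Algebra.adjoin F {y} →+* V :=
      { toFun := fun z => ⟨z, hle z z.2⟩
        map_one' := rfl
        map_mul' := fun _ _ => rfl
        map_zero' := rfl
        map_add' := fun _ _ => rfl }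
    have hint : IsIntegral V a := by
      refine ⟨P.map φ, hP.map φ, ?_⟩
      rw [Polynomial.eval₂_map]
      exact hPa
    obtain ⟨b, hb⟩ := IsIntegrallyClosed.isIntegral_iff.1 hint
    rw [← hb]
    exact b.2
  rcases V.mem_or_inv_mem x with h | h
  · exact haV (key x h h1)
  · exact haV (key x⁻¹ h h2)

end Pool.Agent.Lib.MP_551055_al.BT
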