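import Mathlib
import Pool.Agent.Lib.MP_551055_al.Trim.BT.DV
import Pool.Agent.Lib.MP_551055_al.Trim.BT.Val

/-!
# Places of function fields of one variable
-/

set_option autoImplicit false

namespace IsDedekindDomain
end IsDedekindDomain

namespace Pool.Agent.Lib.MP_551055_al.BT

open IsDedekindDomain

open scoped IntermediateField.algebraAdjoinAdjoin

universe u

variable {F L : Type u} [Field F] [Field L] [Algebra F L]

theorem isPID_adjoin (y : L) : IsPrincipalIdealRing (Algebra.adjoin F {y}) := by
  have hmem : y ∈ Algebra.adjoin F {y} := Algebra.subset_adjoin rfl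
  let f : Polynomial F →ₐ[F] Algebra.adjoin F {y} := Polynomial.aeval ⟨y, hmem⟩
  have hf : Function.Surjective f := by
    rintro ⟨z, hz⟩
    have hz' := hz
    rw [Algebra.adjoin_singleton_eq_range_aeval] at hz'
    obtain ⟨P, hP⟩ := hz'
    refine ⟨P, Subtype.ext ?_⟩
    have h1 := Polynomial.aeval_algHom_apply (Algebra.adjoin F {y}).val
      (⟨y, hmem⟩ : Algebra.adjoin F {y}) P
    exact h1.symm.trans hP
  exact IsPrincipalIdealRing.of_surjective f.toRingHom hf

theorem dedekind_closure (y : L) [FiniteDimensional (IntermediateField.adjoin F {y}) L]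
    [Algebra.IsSeparable (IntermediateField.adjoin F {y}) L] :
    IsDedekindDomain (integralClosure (Algebra.adjoin F {y}) L) ∧
      IsFractionRing (integralClosure (Algebra.adjoin F {y}) L) L := by
  have h1 : IsPrincipalIdealRing (Algebra.adjoin F {y}) := isPID_adjoin y
  have h2 : IsDedekindDomain (Algebra.adjoin F {y}) := inferInstance
  exact ⟨integralClosure.isDedekindDomain (Algebra.adjoin F {y})
    (IntermediateField.adjoin F {y}) L,
    integralClosure.isFractionRing_of_finite_extension (A := Algebra.adjoin F {y})
    (IntermediateField.adjoin F {y}) L⟩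

/-- An element whose valuations are at most `1`, given that those of the generators are. -/
theorem val_le_of_adjoin {Γ : Type*} [LinearOrderedCommGroupWithZero Γ] (w : Valuation L Γ)
    (hcon : ∀ c : F, w (algebraMap F L c) ≤ 1) (S : Set L) (hS : ∀ s ∈ S, w s ≤ 1) (a : L)
    (ha : a ∈ Algebra.adjoin F S) : w a ≤ 1 := by
  induction ha using Algebra.adjoin_induction with
  | mem z hz => exact hS z hz
  | algebraMap c => exact hcon c
  | add a b _ _ ha hb => exact (w.map_add a b).trans (max_le ha hb)
  | mul a b _ _ ha hb =>
    rw [map_mul]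
    exact mul_le_one' ha hb

theorem val_const (y : L) (w : Valuation L (WithZero (Multiplicative ℤ)))
    (h : ∀ b : integralClosure (Algebra.adjoin F {y}) L, w (b : L) ≤ 1) (c : F) :
    w (algebraMap F L c) ≤ 1 := by
  have hc : IsIntegral (Algebra.adjoin F {y}) (algebraMap F L c) := by
    have h3 : algebraMap F L c = algebraMap (Algebra.adjoin F {y}) L
      (algebraMap F (Algebra.adjoin F {y}) c) := rfl
    rw [h3]
    exact isIntegral_algebraMap
  exact h ⟨_, hc⟩

/-- Integral elements over a ring of elements with valuation at most `1`. -/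
theorem val_le_of_isIntegral {Γ : Type*} [LinearOrderedCommGroupWithZero Γ] (w : Valuation L Γ)
    (R : Subring L) (hR : ∀ z ∈ R, w z ≤ 1) (a : L) (ha : IsIntegral R a) : w a ≤ 1 := by
  obtain ⟨P, hP, hPa⟩ := ha
  let φ : R →+* w.integer :=
    { toFun := fun z => ⟨z, hR z z.2⟩
      map_one' := rfl
      map_mul' := fun _ _ => rfl
      map_zero' := rfl
      map_add' := fun _ _ => rfl }
  have hint : IsIntegral w.integer a := by
    refine ⟨P.map φ, hP.map φ, ?_⟩
    rw [Polynomial.eval₂_map]
    exact hPa
  exact (Valuation.integer.integers w).mem_of_integral hint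

/-- The places in dimension one. -/
theorem places_one (x : L) [h1 : FiniteDimensional (IntermediateField.adjoin F {x}) L]
    [h2 : Algebra.IsSeparable (IntermediateField.adjoin F {x}) L] (S : Finset L) :
    ∃ V : Set (DV L), V.Finite ∧ ∀ a ∈ Algebra.adjoin F (S : Set L),
      (∀ v ∈ V, v.ge 0 a) → IsIntegral F a := by
  classical
  have e : IntermediateField.adjoin F {x⁻¹} = IntermediateField.adjoin F {x} := by
    refine le_antisymm ?_ ?_
    · rw [IntermediateField.adjoin_le_iff, Set.singleton_subset_iff]
      exact inv_mem (IntermediateField.subset_adjoin F {x} rfl)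
    · rw [IntermediateField.adjoin_le_iff, Set.singleton_subset_iff]
      have := inv_mem (IntermediateField.subset_adjoin F {x⁻¹} rfl :
        x⁻¹ ∈ IntermediateField.adjoin F {x⁻¹})
      rwa [inv_inv] at this
  have h1' : FiniteDimensional (IntermediateField.adjoin F {x⁻¹}) L := by
    rw [e]
    exact h1
  have h2' : Algebra.IsSeparable (IntermediateField.adjoin F {x⁻¹}) L := by
    rw [e]
    exact h2
  obtain ⟨hD, hK⟩ := dedekind_closure (F := F) x
  obtain ⟨hD', hK'⟩ := dedekind_closure (F := F) x⁻¹
  refine ⟨(fun w : HeightOneSpectrum (integralClosure (Algebra.adjoin F {x}) L) =>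
      DV.ofSpec (K := L) w) '' {w | ∃ s ∈ S, 1 < w.valuation L s} ∪
    (fun w : HeightOneSpectrum (integralClosure (Algebra.adjoin F {x⁻¹}) L) =>
      DV.ofSpec (K := L) w) '' {w | ∃ s ∈ ({x} : Finset L), 1 < w.valuation L s},
    ((finite_poles S).image _).union ((finite_poles {x}).image _), fun a ha hv => ?_⟩
  -- integrality over `F[x]`
  have ha1 : IsIntegral (Algebra.adjoin F {x}) a := by
    have h3 : ∀ w : HeightOneSpectrum (integralClosure (Algebra.adjoin F {x}) L),
        w.valuation L a ≤ 1 := by
      intro w
      by_cases hw : ∃ s ∈ S, 1 < w.valuation L s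
      · exact (DV.ge_ofSpec w a).1 (hv _ (Or.inl ⟨w, hw, rfl⟩))
      · push Not at hw
        exact val_le_of_adjoin (w.valuation L)
          (val_const x (w.valuation L) fun b => w.valuation_le_one b) S hw a ha
    obtain ⟨b, hb⟩ := HeightOneSpectrum.mem_integers_of_valuation_le_one L a h3
    rw [← hb]
    exact b.2
  have ha2 : IsIntegral (Algebra.adjoin F {x⁻¹}) a := by
    have h3 : ∀ w : HeightOneSpectrum (integralClosure (Algebra.adjoin F {x⁻¹}) L),
        w.valuation L a ≤ 1 := by
      intro w
      by_cases hw : ∃ s ∈ ({x} : Finset L), 1 < w.valuation L s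
      · exact (DV.ge_ofSpec w a).1 (hv _ (Or.inr ⟨w, hw, rfl⟩))
      · push Not at hw
        have hcon := val_const x⁻¹ (w.valuation L) fun b => w.valuation_le_one b
        have hx : w.valuation L x ≤ 1 := hw x (Finset.mem_singleton_self x)
        have hle : ∀ z ∈ Algebra.adjoin F {x}, w.valuation L z ≤ 1 := fun z hz =>
          val_le_of_adjoin (w.valuation L) hcon {x} (by
            rintro s rfl
            exact hx) z hz
        exact val_le_of_isIntegral (w.valuation L) (Algebra.adjoin F {x}).toSubring hle a ha1
    obtain ⟨b, hb⟩ := HeightOneSpectrum.mem_integers_of_valuation_le_one L a h3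
    rw [← hb]
    exact b.2
  exact isIntegral_of_both x a ha1 ha2

end Pool.Agent.Lib.MP_551055_al.BT
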