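import Mathlib
import Pool.Agent.Lib.MP_551055_al.Trim.BT.DV
import Pool.Agent.Lib.MP_551055_al.Trim.BT.OneVar

/-!
# Finitely many places of a finitely generated field
-/

set_option autoImplicit false

namespace Pool.Agent.Lib.MP_551055_al.BT

open AlgebraicIndependent

open scoped IntermediateField.algebraAdjoinAdjoin

universe u

/-- The intersection of the algebraic closures of the subfields generated by all but one element of
a transcendence basis. -/
theorem isAlgebraic_of_all {k L : Type*} [Field k] [Field L] [Algebra k L] (s : Set L)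
    (hs : IsTranscendenceBasis k ((↑) : s → L)) (a : L)
    (h : ∀ i ∈ s, IsAlgebraic (Algebra.adjoin k (s \ {i})) a) : IsAlgebraic k a := by
  have hind : (matroid k L).Indep s := (matroid_isBase_iff.2 hs).indep
  have hcl : ∀ t : Set L, a ∈ (matroid k L).closure t ↔ IsAlgebraic (Algebra.adjoin k t) a := by
    intro t
    rw [matroid_closure_eq]
    exact Subalgebra.mem_algebraicClosure _ _
  have h0 : a ∈ (matroid k L).closure ∅ := by
    rcases s.eq_empty_or_nonempty with he | hne
    · subst he
      rw [(matroid_isBase_iff.2 hs).closure_eq]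
      trivial
    · have : Nonempty s := hne.to_subtype
      have h1 := hind.closure_iInter_eq_biInter_closure_of_forall_subset
        (Js := fun i : s => s \ {(i : L)}) fun i => Set.sdiff_subset
      have h2 : (⋂ i : s, s \ {(i : L)}) = ∅ := by
        rw [Set.eq_empty_iff_forall_notMem]
        intro x hx
        rw [Set.mem_iInter] at hx
        obtain ⟨i⟩ := this
        exact (hx ⟨x, (hx i).1⟩).2 rfl
      rw [h2] at h1
      rw [h1, Set.mem_iInter]
      exact fun i => (hcl _).2 (h i i.2)
  rw [hcl, Algebra.adjoin_empty k L] at h0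
  have hbot : Algebra.IsAlgebraic k (⊥ : Subalgebra k L) := ⟨fun ⟨x, hx⟩ => by
    obtain ⟨c, rfl⟩ := Algebra.mem_bot.1 hx
    exact isAlgebraic_algebraMap c⟩
  exact h0.restrictScalars k

/-- Finite separable extensions do not depend on the way the subfield is written. -/
theorem finite_separable_of_eq {k F L : Type*} [Field k] [Field F] [Field L] [Algebra k L]
    [Algebra F L] (K : IntermediateField k L) (E : IntermediateField F L)
    (h : K.toSubfield = E.toSubfield) (h1 : FiniteDimensional K L) (h2 : Algebra.IsSeparable K L) :
    FiniteDimensional E L ∧ Algebra.IsSeparable E L := by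
  have h1' : FiniteDimensional K.toSubfield L := h1
  have h2' : Algebra.IsSeparable K.toSubfield L := h2
  rw [h] at h1' h2'
  exact ⟨h1', h2'⟩

/-- **Finitely many places**, perfect fields of constants. -/
theorem exists_places_perfect (k : Type*) [Field k] [PerfectField k] (L : Type u) [Field L]
    [Algebra k L] [Algebra.EssFiniteType k L] (S : Finset L) :
    ∃ V : Set (DV L), V.Finite ∧ ∀ a ∈ Algebra.adjoin k (S : Set L),
      (∀ v ∈ V, v.ge 0 a) → IsIntegral k a := by
  classical
  obtain ⟨s, hs, hsep⟩ := exists_isTranscendenceBasis_and_isSeparable_of_perfectField k L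
  have hfin : FiniteDimensional (IntermediateField.adjoin k (s : Set L)) L := by
    have : Algebra.EssFiniteType (IntermediateField.adjoin k (s : Set L)) L :=
      Algebra.EssFiniteType.of_comp k _ L
    exact Algebra.finite_of_essFiniteType_of_isAlgebraic
  have key : ∀ i ∈ s, ∃ V : Set (DV L), V.Finite ∧ ∀ a ∈ Algebra.adjoin k (S : Set L),
      (∀ v ∈ V, v.ge 0 a) → IsAlgebraic (Algebra.adjoin k ((s : Set L) \ {i})) a := by
    intro i hi
    have hK : (IntermediateField.adjoin k (s : Set L)).toSubfield =
        (IntermediateField.adjoin (IntermediateField.adjoin k ((s : Set L) \ {i}))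
          {i}).toSubfield := by
      have h1 := IntermediateField.adjoin_adjoin_left k ((s : Set L) \ {i}) {i}
      have h2 : ((s : Set L) \ {i}) ∪ {i} = (s : Set L) := by
        rw [Set.sdiff_union_self, Set.union_eq_left, Set.singleton_subset_iff]
        exact hi
      rw [h2] at h1
      rw [← h1]
      rfl
    obtain ⟨hE1, hE2⟩ := finite_separable_of_eq _ _ hK hfin hsep
    obtain ⟨V, hV, hV'⟩ := places_one
      (F := IntermediateField.adjoin k ((s : Set L) \ {i})) i S
    refine ⟨V, hV, fun a ha h => ?_⟩
    have ha' : a ∈ Algebra.adjoin (IntermediateField.adjoin k ((s : Set L) \ {i}))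
        (S : Set L) := by
      have h3 : Algebra.adjoin k (S : Set L) ≤
          (Algebra.adjoin (IntermediateField.adjoin k ((s : Set L) \ {i}))
            (S : Set L)).restrictScalars k := Algebra.adjoin_le Algebra.subset_adjoin
      exact h3 ha
    have h4 := (isAlgebraic_iff_isIntegral.2 (hV' a ha' h))
    exact h4.restrictScalars (Algebra.adjoin k ((s : Set L) \ {i}))
  choose! V hV hV' using key
  refine ⟨⋃ i ∈ s, V i, Set.Finite.biUnion s.finite_toSet hV, fun a ha h => ?_⟩
  rw [← isAlgebraic_iff_isIntegral]
  refine isAlgebraic_of_all (s : Set L) hs a fun i hi => hV' i hi a ha fun v hv => h v ?_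
  exact Set.mem_biUnion hi hv

/-- **Finitely many places.** -/
theorem exists_places (p : ℕ) [Fact p.Prime] (L : Type u) [Field L] [Algebra (ZMod p) L]
    [Algebra.EssFiniteType (ZMod p) L] (S : Finset L) :
    ∃ V : Set (DV L), V.Finite ∧ ∀ a ∈ Algebra.adjoin (ZMod p) (S : Set L),
      (∀ v ∈ V, v.ge 0 a) → IsIntegral (ZMod p) a :=
  exists_places_perfect (ZMod p) L S

end Pool.Agent.Lib.MP_551055_al.BT
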