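import Mathlib
import Pool.Agent.Lib.MP_551055_al.Trim.BT.DV
import Pool.Agent.Lib.MP_551055_al.Trim.BT.FinOrd
import Pool.Agent.Lib.MP_551055_al.Trim.BT.Places
import Pool.Agent.Lib.MP_551055_al.Trim.BT.Tree
import Pool.Agent.Lib.MP_551055_al.Trim.LS.Stmts

/-!
# Trees for groups of matrices over a finitely generated field of positive characteristic
-/

set_option autoImplicit false

namespace Pool.Agent.Lib.MP_551055_al.LS
end Pool.Agent.Lib.MP_551055_al.LS

namespace Pool.Agent.Lib.MP_551055_al.BT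

open Pool.Agent.Lib.MP_551055_al.LS

/-- The order of the determinant as a homomorphism. -/
noncomputable def DV.ordDet {L : Type} [Field L] (v : DV L) {G : Type} [Group G] (ρ : G →* GL2 L) :
    G →* Multiplicative ℤ where
  toFun g := Multiplicative.ofAdd (v.o (ρ g).val.det)
  map_one' := by
    rw [map_one, Units.val_one, Matrix.det_one, v.o_one]
    rfl
  map_mul' g h := by
    rw [map_mul, Units.val_mul, Matrix.det_mul, v.mul' _ _ (DV.det_ne _) (DV.det_ne _)]
    rfl

/-- **Trees for groups of matrices over a finitely generated field.** -/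
theorem per_field (p : ℕ) [Fact p.Prime] (L : Type) [Field L] [Algebra (ZMod p) L]
    [Algebra.EssFiniteType (ZMod p) L] (S : Finset L) {G : Type} [Group G] (ρ : G →* GL2 L)
    (hent : ∀ g i j, (ρ g).val i j ∈ Algebra.adjoin (ZMod p) (S : Set L))
    (hsq : ∀ g, ∃ e : L, (ρ g).val.det = e * e) :
    ∃ (J : Type) (_ : Finite J) (V : J → Type) (_ : ∀ j, MulAction G (V j))
      (T : ∀ j, SimpleGraph (V j)) (δ : J → G →* Multiplicative ℤ),
      (∀ j, TreeAct G (V j) (T j)) ∧ ∀ (γ : G) (x : ∀ j, V j), (∀ j, γ • x j = x j) →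
        (∀ j, δ j γ = 1) → IsOfFinOrder (ρ γ) := by
  obtain ⟨W, hW, hW'⟩ := exists_places p L S
  refine ⟨W, hW, fun v => v.1.Vt, fun v => MulAction.compHom v.1.Vt ρ, fun v => v.1.T,
    fun v => v.1.ordDet ρ, fun v => ?_, fun γ x hx hδ => ?_⟩
  · refine @TreeAct.mk G _ v.1.Vt (MulAction.compHom v.1.Vt ρ) v.1.T v.1.T_isTree ?_ ?_
    · intro γ a b hab
      exact v.1.adj_smul (ρ γ) a b hab
    · intro γ a b hab h1 _
      have h2 : Even (v.1.o (ρ γ).val.det) := by
        obtain ⟨e, he⟩ := hsq γ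
        have he0 : e ≠ 0 := by
          rintro rfl
          exact DV.det_ne (ρ γ) (by rw [he, mul_zero])
        rw [he, v.1.mul' _ _ he0 he0]
        exact ⟨_, rfl⟩
      refine v.1.no_inv (ρ γ) h2 a ?_
      have h3 : ρ γ • a = b := h1
      rw [h3]
      exact hab
  · have hdet : ∀ v : W, v.1.o (ρ γ).val.det = 0 := fun v => hδ v
    refine isOfFinOrder_of_algebraic p (ρ γ) ?_ ?_
    · refine hW' _ ?_ fun v hv => ?_
      · rw [Matrix.trace_fin_two]
        exact add_mem (hent γ 0 0) (hent γ 1 1)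
      · exact v.trace_ge (ρ γ) (hdet ⟨v, hv⟩) (x ⟨v, hv⟩) (hx ⟨v, hv⟩)
    · refine hW' _ ?_ fun v hv => ?_
      · rw [Matrix.det_fin_two]
        exact sub_mem (mul_mem (hent γ 0 0) (hent γ 1 1)) (mul_mem (hent γ 0 1) (hent γ 1 0))
      · exact Or.inr (hdet ⟨v, hv⟩).ge

end Pool.Agent.Lib.MP_551055_al.BT
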