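import Mathlib

/-!
# Fields over the quotients of a finitely generated ring of positive characteristic
-/

set_option autoImplicit false

namespace Pool.Agent.Lib.MP_551055_al.BT

universe u

/-- A finite extension with square roots. -/
theorem exists_ext (κ : Type u) [Field κ] (D : Finset κ) :
    ∃ (L : Type u) (_ : Field L) (_ : Algebra κ L), FiniteDimensional κ L ∧
      ∀ d ∈ D, ∃ e : L, algebraMap κ L d = e * e := by
  classical
  have hroot : ∀ d : κ, ∃ e : AlgebraicClosure κ, algebraMap κ (AlgebraicClosure κ) d = e * e :=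
    fun d => IsAlgClosed.exists_eq_mul_self _
  choose r hr using hroot
  have hfinD : Finite (r '' (D : Set κ)) := D.finite_toSet.image r
  refine ⟨IntermediateField.adjoin κ (r '' (D : Set κ)), inferInstance, inferInstance,
    IntermediateField.finiteDimensional_adjoin fun x _ => Algebra.IsIntegral.isIntegral x, ?_⟩
  intro d hd
  refine ⟨⟨r d, IntermediateField.subset_adjoin κ _ ⟨d, hd, rfl⟩⟩, Subtype.ext ?_⟩
  exact hr d

theorem ft_of_surj {A B : Type u} [CommRing A] [CommRing B] [Algebra.FiniteType ℤ A]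
    (f : A →+* B) (hf : Function.Surjective f) : Algebra.FiniteType ℤ B :=
  Algebra.FiniteType.of_surjective f.toIntAlgHom hf

/-- The field of fractions of a domain which is of finite type over `ℤ`. -/
theorem ess_of_fraction (B : Type u) [CommRing B] [IsDomain B] [Algebra.FiniteType ℤ B]
    (κ : Type u) [Field κ] [Algebra B κ] [IsFractionRing B κ] : Algebra.EssFiniteType ℤ κ := by
  have h1 : Algebra.EssFiniteType ℤ B := inferInstance
  have h2 : Algebra.EssFiniteType B κ :=
    Algebra.EssFiniteType.of_isLocalization _ (nonZeroDivisors B)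
  exact Algebra.EssFiniteType.comp ℤ B κ

/-- Square roots in a finite extension. -/
theorem exists_field_aux (κ : Type u) [Field κ] [Algebra.EssFiniteType ℤ κ] (n : ℕ) (hn : n ≠ 0)
    (hκ : (n : κ) = 0) (D : Finset κ) :
    ∃ (p : ℕ) (_ : Fact p.Prime) (L : Type u) (_ : Field L) (_ : Algebra (ZMod p) L)
      (_ : Algebra.EssFiniteType (ZMod p) L) (φ : κ →+* L), ∀ d ∈ D, ∃ e : L, φ d = e * e := by
  obtain ⟨p, hp⟩ := CharP.exists κ
  have hp0 : p ≠ 0 := by
    rintro rfl
    have h1 := (CharP.cast_eq_zero_iff κ 0 n).1 hκ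
    exact hn (zero_dvd_iff.1 h1)
  have hpp : p.Prime := (CharP.char_is_prime_or_zero κ p).resolve_right hp0
  have hfact : Fact p.Prime := ⟨hpp⟩
  obtain ⟨L, hL, hLκ, hfin, hroot⟩ := exists_ext κ D
  have hess3 : Algebra.EssFiniteType ℤ L := Algebra.EssFiniteType.comp ℤ κ L
  have hcE : CharP L p := charP_of_injective_algebraMap (algebraMap κ L).injective p
  let alg : Algebra (ZMod p) L := ZMod.algebra L p
  have hess4 : Algebra.EssFiniteType (ZMod p) L := Algebra.EssFiniteType.of_comp ℤ (ZMod p) L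
  exact ⟨p, hfact, L, inferInstance, alg, hess4, algebraMap κ L, hroot⟩

/-- A field with square roots, over the quotient by a prime ideal. -/
theorem exists_field (A : Type u) [CommRing A] [Algebra.FiniteType ℤ A] (n : ℕ) (hn : n ≠ 0)
    (hA : (n : A) = 0) (P : Ideal A) [P.IsPrime] (D : Finset A) :
    ∃ (p : ℕ) (_ : Fact p.Prime) (L : Type u) (_ : Field L) (_ : Algebra (ZMod p) L)
      (_ : Algebra.EssFiniteType (ZMod p) L) (φ : A →+* L), RingHom.ker φ = P ∧
      ∀ d ∈ D, ∃ e : L, φ d = e * e := by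
  classical
  obtain ⟨κ, i1, i2, i3⟩ : ∃ (κ : Type u) (_ : Field κ) (_ : Algebra (A ⧸ P) κ),
      IsFractionRing (A ⧸ P) κ := ⟨FractionRing (A ⧸ P), inferInstance, inferInstance, inferInstance⟩
  have hft := ft_of_surj (Ideal.Quotient.mk P) Ideal.Quotient.mk_surjective
  have hess := @ess_of_fraction (A ⧸ P) _ _ hft κ _ _ _
  have hnκ : (n : κ) = 0 := by
    have h1 : algebraMap (A ⧸ P) κ (Ideal.Quotient.mk P n) = 0 := by rw [hA, map_zero, map_zero]
    rwa [map_natCast, map_natCast] at h1
  obtain ⟨p, hp, L, i4, i5, i6, φ, hφ⟩ := exists_field_aux κ n hn hnκ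
    (D.image fun d => algebraMap (A ⧸ P) κ (Ideal.Quotient.mk P d))
  refine ⟨p, hp, L, i4, i5, i6, (φ.comp (algebraMap (A ⧸ P) κ)).comp (Ideal.Quotient.mk P),
    ?_, ?_⟩
  · have hinj : Function.Injective (φ.comp (algebraMap (A ⧸ P) κ)) := by
      rw [RingHom.coe_comp]
      exact φ.injective.comp (IsFractionRing.injective (A ⧸ P) κ)
    rw [← RingHom.comap_ker, (RingHom.injective_iff_ker_eq_bot _).1 hinj, ← RingHom.ker_eq_comap_bot,
      Ideal.mk_ker]
  · intro d hd
    exact hφ _ (Finset.mem_image_of_mem _ hd)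

end Pool.Agent.Lib.MP_551055_al.BT
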