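import Mathlib

/-!
# Trees from a height function
-/

set_option autoImplicit false

namespace Pool.Agent.Lib.MP_551055_al.BT

universe u

/-- A graph with a height function such that every vertex different from the root has exactly one
lower neighbour (and the root has at most one) is a tree. -/
theorem isTree_of_height {V : Type u} (T : SimpleGraph V) (h : V → ℕ) (r : V)
    (hne : ∀ x y, T.Adj x y → h x ≠ h y) (hex : ∀ x, x ≠ r → ∃ y, T.Adj x y ∧ h y < h x)
    (huniq : ∀ x y z, T.Adj x y → T.Adj x z → h y < h x → h z < h x → y = z) : T.IsTree := by
  have hreach : ∀ (n : ℕ) (x : V), h x ≤ n → T.Reachable x r := by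
    intro n
    induction n with
    | zero =>
      intro x hx
      by_cases hxr : x = r
      · rw [hxr]
      · obtain ⟨y, -, hy⟩ := hex x hxr
        omega
    | succ n ih =>
      intro x hx
      by_cases hxr : x = r
      · rw [hxr]
      · obtain ⟨y, hxy, hy⟩ := hex x hxr
        exact hxy.reachable.trans (ih y (by omega))
  rw [SimpleGraph.isTree_iff]
  refine ⟨?_, ?_⟩
  · have : Nonempty V := ⟨r⟩
    exact SimpleGraph.Connected.mk fun x y =>
      (hreach _ x le_rfl).trans (hreach _ y le_rfl).symm
  · rw [SimpleGraph.isAcyclic_iff_forall_adj_isBridge]
    have key : ∀ x y : V, T.Adj x y → h y < h x → T.IsBridge s(x, y) := by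
      intro x y hxy hlt
      rw [SimpleGraph.isBridge_iff]
      rintro ⟨w⟩
      have hle : ∀ a : V, Relation.ReflTransGen (fun a b => T.Adj a b ∧ h b < h a) a x →
          h x ≤ h a := by
        intro a ha
        induction ha using Relation.ReflTransGen.head_induction_on with
        | refl => exact le_rfl
        | head hab _ ih => exact ih.trans hab.2.le
      have hcl : ∀ (a b : V) (_ : (T.deleteEdges {s(x, y)}).Walk a b),
          Relation.ReflTransGen (fun a b => T.Adj a b ∧ h b < h a) a x →
          Relation.ReflTransGen (fun a b => T.Adj a b ∧ h b < h a) b x := by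
        intro a b w
        induction w with
        | nil => exact id
        | cons hab _ ih =>
          rename_i a b c _
          intro ha
          refine ih ?_
          rw [SimpleGraph.deleteEdges_adj] at hab
          obtain ⟨hab, hn⟩ := hab
          rcases lt_or_gt_of_ne (hne a b hab) with h1 | h1
          · exact Relation.ReflTransGen.head ⟨hab.symm, h1⟩ ha
          · rcases Relation.ReflTransGen.cases_head ha with h2 | ⟨c, hc, h2⟩
            · subst h2
              exact absurd (by rw [huniq a b y hab hxy h1 hlt]; rfl) hn
            · rwa [huniq a b c hab hc.1 h1 hc.2]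
      have := hle y (hcl x y w Relation.ReflTransGen.refl)
      omega
    intro x y hxy
    rcases lt_or_gt_of_ne (hne x y hxy) with h1 | h1
    · rw [Sym2.eq_swap]
      exact key y x hxy.symm h1
    · exact key x y hxy h1

end Pool.Agent.Lib.MP_551055_al.BT
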