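import Mathlib

/-!
# Groups of rational matrices with bounded denominators
-/

set_option autoImplicit false

namespace Pool.Agent.Lib.MP_551055_al.BT

/-- A nonzero subgroup of the integers. -/
theorem exists_gen (A : AddSubgroup ℤ) (d : ℤ) (hd : d ≠ 0) (hA : d ∈ A) :
    ∃ α : ℤ, α ≠ 0 ∧ α ∈ A ∧ ∀ a ∈ A, ∃ m : ℤ, a = m * α := by
  obtain ⟨α, hα⟩ := Int.subgroup_cyclic A
  have h1 : ∀ a : ℤ, a ∈ A ↔ ∃ m : ℤ, m * α = a := by
    intro a
    rw [hα, AddSubgroup.mem_closure_singleton]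
    simp only [smul_eq_mul]
  refine ⟨α, ?_, (h1 α).2 ⟨1, one_mul α⟩, fun a ha => ?_⟩
  · rintro rfl
    obtain ⟨m, hm⟩ := (h1 d).1 hA
    rw [mul_zero] at hm
    exact hd hm.symm
  · obtain ⟨m, hm⟩ := (h1 a).1 ha
    exact ⟨m, hm.symm⟩

section

end

end Pool.Agent.Lib.MP_551055_al.BT
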