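import Mathlib

/-!
# Finitely generated groups of matrices have entries in a finitely generated ring
-/

set_option autoImplicit false

namespace Pool.Agent.Lib.MP_551055_al.BT

universe u v

theorem ft_of_closure (A : Type u) [CommRing A] (S : Finset A)
    (h : Subring.closure (S : Set A) = ⊤) : Algebra.FiniteType ℤ A := by
  refine ⟨⟨S, ?_⟩⟩
  rw [eq_top_iff]
  intro x _
  have hx : x ∈ Subring.closure (S : Set A) := by rw [h]; trivial
  rw [Algebra.adjoin_int]
  exact hx

/-- Homomorphisms to matrices with entries in the image of an injective ring homomorphism. -/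
theorem exists_lift {A R : Type u} [CommRing A] [CommRing R] (ι : A →+* R)
    (hι : Function.Injective ι) {G : Type v} [Group G]
    (ρ : G →* Matrix.GeneralLinearGroup (Fin 2) R) (h : ∀ g i j, (ρ g).val i j ∈ ι.range) :
    ∃ ρ' : G →* Matrix.GeneralLinearGroup (Fin 2) A, ∀ g, (ρ' g).val.map ι = (ρ g).val := by
  choose f hf using h
  have hinj : ∀ X Y : Matrix (Fin 2) (Fin 2) A, X.map ι = Y.map ι → X = Y := fun X Y hXY => by
    ext i j
    exact hι (congrFun (congrFun hXY i) j)
  have hm : ∀ g, (Matrix.of (f g)).map ι = (ρ g).val := by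
    intro g
    ext i j
    exact hf g i j
  let φ : G →* Matrix (Fin 2) (Fin 2) A :=
    { toFun := fun g => Matrix.of (f g)
      map_one' := hinj _ _ (by
        rw [hm, map_one, Units.val_one, Matrix.map_one _ (map_zero ι) (map_one ι)])
      map_mul' := fun a b => hinj _ _ (by
        rw [hm, map_mul, Units.val_mul, Matrix.map_mul, hm, hm]) }
  exact ⟨φ.toHomUnits, hm⟩

/-- The entries of the elements of a finitely generated group of matrices. -/
theorem exists_ring {R : Type u} [CommRing R] {G : Type v} [Group G] [hG : Group.FG G]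
    (ρ : G →* Matrix.GeneralLinearGroup (Fin 2) R) :
    ∃ (A : Type u) (_ : CommRing A) (ι : A →+* R) (S : Finset A), Function.Injective ι ∧
      Subring.closure (S : Set A) = ⊤ ∧ ∀ g i j, (ρ g).val i j ∈ ι.range := by
  classical
  obtain ⟨X, hX, hXf⟩ := Group.fg_iff.1 hG
  set E : Set R := ⋃ x ∈ X, ⋃ i : Fin 2, ⋃ j : Fin 2, {(ρ x).val i j, (ρ x⁻¹).val i j} with hE
  have hEf : E.Finite := hXf.biUnion fun x _ => Set.finite_iUnion fun i => Set.finite_iUnion
    fun j => Set.toFinite _
  have hpre : (((↑) : Subring.closure E → R) ⁻¹' E).Finite :=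
    hEf.preimage (Subtype.val_injective.injOn)
  refine ⟨Subring.closure E, inferInstance, (Subring.closure E).subtype, hpre.toFinset,
    Subtype.val_injective, ?_, ?_⟩
  · rw [Set.Finite.coe_toFinset]
    rw [eq_top_iff]
    rintro ⟨x, hx⟩ _
    induction hx using Subring.closure_induction with
    | mem x hx => exact Subring.subset_closure hx
    | zero => exact zero_mem _
    | one => exact one_mem _
    | add x y hx hy h1 h2 => exact add_mem (h1 trivial) (h2 trivial)
    | neg x hx h1 => exact neg_mem (h1 trivial)
    | mul x y hx hy h1 h2 => exact mul_mem (h1 trivial) (h2 trivial)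
  · have key : ∀ g : G, g ∈ Subgroup.closure X →
        (∀ i j, (ρ g).val i j ∈ Subring.closure E) ∧ ∀ i j, (ρ g⁻¹).val i j ∈ Subring.closure E := by
      intro g hg
      induction hg using Subgroup.closure_induction with
      | mem x hx =>
        constructor
        · intro i j
          refine Subring.subset_closure (Set.mem_biUnion hx (Set.mem_iUnion.2 ⟨i,
            Set.mem_iUnion.2 ⟨j, Or.inl rfl⟩⟩))
        · intro i j
          refine Subring.subset_closure (Set.mem_biUnion hx (Set.mem_iUnion.2 ⟨i,
            Set.mem_iUnion.2 ⟨j, Or.inr rfl⟩⟩))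
      | one =>
        have h1 : ∀ i j, (ρ 1).val i j ∈ Subring.closure E := by
          intro i j
          rw [map_one, Units.val_one, Matrix.one_apply]
          split_ifs
          · exact one_mem _
          · exact zero_mem _
        rw [inv_one]
        exact ⟨h1, h1⟩
      | mul a b _ _ ha hb =>
        constructor
        · intro i j
          rw [map_mul, Units.val_mul, Matrix.mul_apply]
          exact sum_mem fun k _ => mul_mem (ha.1 i k) (hb.1 k j)
        · intro i j
          rw [mul_inv_rev, map_mul, Units.val_mul, Matrix.mul_apply]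
          exact sum_mem fun k _ => mul_mem (hb.2 i k) (ha.2 k j)
      | inv a _ ha =>
        rw [inv_inv]
        exact ⟨ha.2, ha.1⟩
    intro g i j
    have hg : g ∈ Subgroup.closure X := by rw [hX]; trivial
    exact ⟨⟨_, (key g hg).1 i j⟩, rfl⟩

end Pool.Agent.Lib.MP_551055_al.BT
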