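import Mathlib

/-!
# Matrices congruent to the identity modulo a nilpotent ideal, positive characteristic
-/

set_option autoImplicit false

namespace Pool.Agent.Lib.MP_551055_al.BT

universe u

/-- The entries of `X` are in the ideal `I`. -/
def In {A : Type u} [CommRing A] (I : Ideal A) (X : Matrix (Fin 2) (Fin 2) A) : Prop :=
  ∀ i j, X i j ∈ I

section

variable {A : Type u} [CommRing A]

theorem In.mul {I J : Ideal A} {X Y : Matrix (Fin 2) (Fin 2) A} (hX : In I X) (hY : In J Y) :
    In (I * J) (X * Y) := by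
  intro i j
  rw [Matrix.mul_apply]
  exact Submodule.sum_mem _ fun k _ => Ideal.mul_mem_mul (hX i k) (hY k j)

theorem In.mul_left {I : Ideal A} (X : Matrix (Fin 2) (Fin 2) A) {Y : Matrix (Fin 2) (Fin 2) A}
    (hY : In I Y) : In I (X * Y) := by
  intro i j
  rw [Matrix.mul_apply]
  exact Submodule.sum_mem _ fun k _ => Ideal.mul_mem_left _ _ (hY k j)

theorem In.sum {I : Ideal A} {ι : Type*} (s : Finset ι) (X : ι → Matrix (Fin 2) (Fin 2) A)
    (hX : ∀ k ∈ s, In I (X k)) : In I (∑ k ∈ s, X k) := by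
  classical
  intro i j
  rw [Matrix.sum_apply]
  exact Submodule.sum_mem _ fun k hk => hX k hk i j

theorem In.mono {I J : Ideal A} (h : I ≤ J) {X : Matrix (Fin 2) (Fin 2) A} (hX : In I X) :
    In J X := fun i j => h (hX i j)

/-- One step. -/
theorem In.step {I J : Ideal A} (n : ℕ) (hA : (n : A) = 0) (hIJ : J ≤ I)
    {h : Matrix (Fin 2) (Fin 2) A} (hh : In J (h - 1)) : In (I * J) (h ^ n - 1) := by
  rw [← geom_sum_mul]
  refine In.mul ?_ hh
  have h1 : ∑ i ∈ Finset.range n, h ^ i = ∑ i ∈ Finset.range n, (h ^ i - 1) := by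
    rw [Finset.sum_sub_distrib, Finset.sum_const, Finset.card_range]
    have h2 : n • (1 : Matrix (Fin 2) (Fin 2) A) = 0 := by
      rw [← Nat.cast_smul_eq_nsmul A, hA, zero_smul]
    rw [h2, sub_zero]
  rw [h1]
  refine In.sum _ _ fun i _ => ?_
  rw [← geom_sum_mul]
  exact In.mul_left _ (hh.mono hIJ)

/-- A matrix which is congruent to the identity modulo a nilpotent ideal has finite order. -/
theorem pow_eq_one_of_congr (n : ℕ) (hA : (n : A) = 0) (N : Ideal A) (r : ℕ) (hN : N ^ r = ⊥)
    (g : Matrix (Fin 2) (Fin 2) A) (hg : In N (g - 1)) : g ^ (n ^ r) = 1 := by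
  have key : ∀ k : ℕ, In (N ^ (k + 1)) (g ^ (n ^ k) - 1) := by
    intro k
    induction k with
    | zero =>
      rw [pow_zero, pow_one, pow_one]
      exact hg
    | succ k ih =>
      have h1 := In.step (I := N) n hA (Ideal.pow_le_self (Nat.succ_ne_zero k)) ih
      rw [← pow_mul, ← pow_succ, ← pow_succ'] at h1
      exact h1
  have h2 := key r
  have h3 : N ^ (r + 1) = ⊥ := by rw [pow_succ, hN, Ideal.bot_mul]
  rw [h3] at h2
  rw [← sub_eq_zero]
  ext i j
  exact Ideal.mem_bot.1 (h2 i j)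

end

end Pool.Agent.Lib.MP_551055_al.BT
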