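import Mathlib
import Pool.Agent.Lib.MP_551055_al.Trim.BT.Field1
import Pool.Agent.Lib.MP_551055_al.Trim.BT.Fields
import Pool.Agent.Lib.MP_551055_al.Trim.BT.Lift
import Pool.Agent.Lib.MP_551055_al.Trim.BT.Nilp
import Pool.Agent.Lib.MP_551055_al.Trim.BT.Tree
import Pool.Agent.Lib.MP_551055_al.Trim.LS.Stmts

/-!
# Torsion-free subgroups of `GL₂(R)`, `R` a commutative ring of positive characteristic

Every finitely generated torsion-free subgroup of `GL₂(R)` acts without inversions on finitely
many trees such that the stabilisers of the tuples of vertices are finitely generated free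
abelian.
-/

set_option autoImplicit false

namespace Pool.Agent.Lib.MP_551055_al.LS
end Pool.Agent.Lib.MP_551055_al.LS

namespace Pool.Agent.Lib.MP_551055_al.BT

open Pool.Agent.Lib.MP_551055_al.LS

/-- The trees for one prime ideal. -/
theorem per_prime (A : Type) [CommRing A] (S : Finset A)
    (hS : Subring.closure (S : Set A) = ⊤) (n : ℕ) (hn : n ≠ 0) (hA : (n : A) = 0)
    {G : Type} [Group G] [hG : Group.FG G] (ρ : G →* Matrix.GeneralLinearGroup (Fin 2) A)
    (P : Ideal A) [hP : P.IsPrime] :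
    ∃ (J : Type) (_ : Finite J) (V : J → Type) (_ : ∀ j, MulAction G (V j))
      (T : ∀ j, SimpleGraph (V j)) (δ : J → G →* Multiplicative ℤ),
      (∀ j, TreeAct G (V j) (T j)) ∧ ∀ (γ : G) (x : ∀ j, V j), (∀ j, γ • x j = x j) →
        (∀ j, δ j γ = 1) → ∃ m : ℕ, 0 < m ∧ In P ((ρ γ).val ^ m - 1) := by
  classical
  have hft : Algebra.FiniteType ℤ A := ft_of_closure A S hS
  obtain ⟨X, hX, hXf⟩ := Group.fg_iff.1 hG
  obtain ⟨p, hp, L, i1, i2, i3, φ, hker, hroot⟩ := exists_field A n hn hA P
    (hXf.toFinset.image fun x => (ρ x).val.det)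
  set ρ' : G →* GL2 L := (Matrix.GeneralLinearGroup.map φ).comp ρ with hρ'
  have hval : ∀ g, (ρ' g).val = (ρ g).val.map φ := fun g => rfl
  -- the image of `A`
  have himg : ∀ a : A, φ a ∈ Algebra.adjoin (ZMod p) ((S.image φ : Finset L) : Set L) := by
    intro a
    have ha : a ∈ Subring.closure (S : Set A) := by rw [hS]; trivial
    induction ha using Subring.closure_induction with
    | mem x hx =>
      refine Algebra.subset_adjoin ?_
      rw [Finset.coe_image]
      exact ⟨x, hx, rfl⟩
    | zero => rw [map_zero]; exact zero_mem _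
    | one => rw [map_one]; exact one_mem _
    | add x y _ _ h1 h2 => rw [map_add]; exact add_mem h1 h2
    | neg x _ h1 => rw [map_neg]; exact neg_mem h1
    | mul x y _ _ h1 h2 => rw [map_mul]; exact mul_mem h1 h2
  have hdet : ∀ g, (ρ' g).val.det = φ (ρ g).val.det := by
    intro g
    rw [hval, ← RingHom.mapMatrix_apply, ← RingHom.map_det]
  have hsq : ∀ g, ∃ e : L, (ρ' g).val.det = e * e := by
    intro g
    have hg : g ∈ Subgroup.closure X := by rw [hX]; trivial
    induction hg using Subgroup.closure_induction with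
    | mem x hx =>
      rw [hdet]
      refine hroot _ (Finset.mem_image_of_mem (fun x => (ρ x).val.det) ?_)
      exact hXf.mem_toFinset.2 hx
    | one => exact ⟨1, by rw [map_one, Units.val_one, Matrix.det_one, mul_one]⟩
    | mul a b _ _ ha hb =>
      obtain ⟨e, he⟩ := ha
      obtain ⟨f, hf⟩ := hb
      exact ⟨e * f, by rw [map_mul, Units.val_mul, Matrix.det_mul, he, hf]; ring⟩
    | inv a _ ha =>
      obtain ⟨e, he⟩ := ha
      refine ⟨e⁻¹, ?_⟩
      have h1 : (ρ' a⁻¹).val.det * (ρ' a).val.det = 1 := by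
        rw [← Matrix.det_mul, ← Units.val_mul, ← map_mul, inv_mul_cancel, map_one, Units.val_one,
          Matrix.det_one]
      rw [eq_inv_of_mul_eq_one_left h1, he, mul_inv]
  obtain ⟨J, hJ, V, act, T, δ, hT, hfin⟩ := per_field p L (S.image φ) ρ'
    (fun g i j => himg _) hsq
  refine ⟨J, hJ, V, act, T, δ, hT, fun γ x hx hδ => ?_⟩
  obtain ⟨m, hm, hm1⟩ := isOfFinOrder_iff_pow_eq_one.1 (hfin γ x hx hδ)
  refine ⟨m, hm, fun i j => ?_⟩
  rw [← hker, RingHom.mem_ker]
  have h2 : ((ρ γ).val ^ m - 1).map φ = 0 := by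
    rw [← RingHom.mapMatrix_apply, map_sub, map_pow, map_one, RingHom.mapMatrix_apply, ← hval,
      ← Units.val_pow_eq_pow_val, hm1, Units.val_one, sub_self]
  exact congrFun (congrFun h2 i) j

/-- The trees for a homomorphism to `GL₂(R)`: the elements of the stabiliser of a tuple on which
the characters vanish have images of finite order. -/
theorem trees_of_ring_fin (R : Type) [CommRing R] (n : ℕ) (hn : n ≠ 0) (hR : (n : R) = 0)
    (G : Type) [Group G] [hG : Group.FG G] (ρ : G →* Matrix.GeneralLinearGroup (Fin 2) R) :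
    ∃ (J : Type) (_ : Finite J) (V : J → Type) (_ : ∀ j, MulAction G (V j))
      (T : ∀ j, SimpleGraph (V j)) (δ : J → G →* Multiplicative ℤ),
      (∀ j, TreeAct G (V j) (T j)) ∧ ∀ (γ : G) (x : ∀ j, V j), (∀ j, γ • x j = x j) →
        (∀ j, δ j γ = 1) → IsOfFinOrder (ρ γ) := by
  classical
  obtain ⟨A, i1, ι, S, hι, hS, hent⟩ := exists_ring ρ
  obtain ⟨ρ', hρ'⟩ := exists_lift ι hι ρ hent
  have hft : Algebra.FiniteType ℤ A := ft_of_closure A S hS
  have hnoeth : IsNoetherianRing A := Algebra.FiniteType.isNoetherianRing ℤ A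
  have hA : (n : A) = 0 := hι (by rw [map_natCast, map_zero, hR])
  have hmin : (minimalPrimes A).Finite := minimalPrimes.finite_of_isNoetherianRing A
  have hprime : ∀ P : minimalPrimes A, (P : Ideal A).IsPrime := fun P => P.2.1.1
  have key := fun P : minimalPrimes A => per_prime A S hS n hn hA ρ' (P : Ideal A) (hP := hprime P)
  choose J hJ V act T δ hT hfin using key
  have : Finite (minimalPrimes A) := hmin
  refine ⟨Σ P : minimalPrimes A, J P, inferInstance, fun j => V j.1 j.2,
    fun j => act j.1 j.2, fun j => T j.1 j.2, fun j => δ j.1 j.2, fun j => hT j.1 j.2,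
    fun γ x hx hγ => ?_⟩
  have hm := fun P : minimalPrimes A => hfin P γ (fun j => x ⟨P, j⟩) (fun j => hx ⟨P, j⟩)
    fun j => hγ ⟨P, j⟩
  choose m hm0 hm1 using hm
  have := Fintype.ofFinite (minimalPrimes A)
  set M : ℕ := ∏ P : minimalPrimes A, m P with hM
  have hM0 : 0 < M := Finset.prod_pos fun P _ => hm0 P
  -- the power is congruent to the identity modulo all minimal primes
  have h1 : ∀ P : minimalPrimes A, In (P : Ideal A) ((ρ' γ).val ^ M - 1) := by
    intro P
    obtain ⟨k, hk⟩ := Finset.dvd_prod_of_mem m (Finset.mem_univ P)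
    rw [hM, hk, pow_mul]
    have h3 : ((ρ' γ).val ^ m P) ^ k - 1 =
        (∑ i ∈ Finset.range k, ((ρ' γ).val ^ m P) ^ i) * ((ρ' γ).val ^ m P - 1) :=
      (geom_sum_mul _ _).symm
    rw [h3]
    exact In.mul_left _ (hm1 P)
  have h2 : In (nilradical A) ((ρ' γ).val ^ M - 1) := by
    intro i j
    rw [nilradical, ← Ideal.sInf_minimalPrimes]
    exact Submodule.mem_sInf.2 fun P hP => h1 ⟨P, hP⟩ i j
  obtain ⟨r, hr⟩ := IsNoetherianRing.isNilpotent_nilradical A
  have h3 := pow_eq_one_of_congr n hA (nilradical A) r hr _ h2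
  rw [← pow_mul] at h3
  have h4 : (ρ γ).val ^ (M * n ^ r) = 1 := by
    rw [← hρ', ← RingHom.mapMatrix_apply, ← map_pow, h3, map_one]
  rw [isOfFinOrder_iff_pow_eq_one]
  refine ⟨M * n ^ r, Nat.mul_pos hM0 (pow_pos (Nat.pos_of_ne_zero hn) r), ?_⟩
  exact Units.ext (by rw [Units.val_pow_eq_pow_val, h4, Units.val_one])

end Pool.Agent.Lib.MP_551055_al.BT
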