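import Mathlib
import Pool.Agent.Lib.MP_551055_al.Trim.LS.Stmts

/-!
# Torsion-free subgroups of `SL₂(K) × GL₂(R)`

`K` is a field of characteristic zero in which `ℚ` is existentially closed, `R` a commutative
ring of positive characteristic.
-/

set_option autoImplicit false

namespace Pool.Agent.Lib.MP_551055_al.LS
end Pool.Agent.Lib.MP_551055_al.LS

namespace Pool.Agent.Lib.MP_551055_al.BT

open Pool.Agent.Lib.MP_551055_al.LS

/-- There are finitely many trees such that the subgroups which fix a tuple of vertices have the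
property `P`. -/
def HasTrees (G : Type) [Group G] (P : Subgroup G → Prop) : Prop :=
  ∃ (J : Type) (_ : Finite J) (V : J → Type) (_ : ∀ j, MulAction G (V j))
    (T : ∀ j, SimpleGraph (V j)), (∀ j, TreeAct G (V j) (T j)) ∧
      ∀ (v : ∀ j, V j) (H : Subgroup G), (∀ γ ∈ H, ∀ j, γ • v j = v j) → P H

theorem HasTrees.mono {G : Type} [Group G] {P Q : Subgroup G → Prop} (h : HasTrees G P)
    (hPQ : ∀ H, P H → Q H) : HasTrees G Q := by
  obtain ⟨J, hJ, V, act, T, hT, hP⟩ := h
  exact ⟨J, hJ, V, act, T, hT, fun v H hH => hPQ H (hP v H hH)⟩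

theorem HasTrees.and {G : Type} [Group G] {P Q : Subgroup G → Prop} (h : HasTrees G P)
    (h' : HasTrees G Q) : HasTrees G fun H => P H ∧ Q H := by
  obtain ⟨J, hJ, V, act, T, hT, hP⟩ := h
  obtain ⟨J', hJ', V', act', T', hT', hQ⟩ := h'
  refine ⟨J ⊕ J', inferInstance, Sum.elim V V', fun j => ?_, fun j => ?_, fun j => ?_,
    fun v H hH => ?_⟩
  · cases j with
    | inl j => exact act j
    | inr j => exact act' j
  · cases j with
    | inl j => exact T j
    | inr j => exact T' j
  · cases j with
    | inl j => exact hT j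
    | inr j => exact hT' j
  · exact ⟨hP (fun j => v (Sum.inl j)) H fun γ hγ j => hH γ hγ (Sum.inl j),
      hQ (fun j => v (Sum.inr j)) H fun γ hγ j => hH γ hγ (Sum.inr j)⟩

end Pool.Agent.Lib.MP_551055_al.BT
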