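import Mathlib
import Pool.Agent.Lib.MP_551055_al.Trim.BT.DV
import Pool.Agent.Lib.MP_551055_al.Trim.BT.Tree

/-!
# Stabilisers in the `p`-adic trees: bounded denominators
-/

set_option autoImplicit false

namespace Pool.Agent.Lib.MP_551055_al.BT

universe u

/-- The `p`-adic valuation. -/
noncomputable def padicDV (p : ℕ) [hp : Fact p.Prime] : DV ℚ where
  o := padicValRat p
  mul' _ _ hx hy := padicValRat.mul hx hy
  add' _ _ _ _ hxy := padicValRat.min_le_padicValRat_add hxy
  π := p
  π0 := by exact_mod_cast hp.out.ne_zero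
  oπ := padicValRat.self hp.out.one_lt

/-- A rational number which is integral at all primes is an integer. -/
theorem int_of_padic (q : ℚ) (h : ∀ (p : ℕ) (hp : Fact p.Prime), (padicDV p).ge 0 q) :
    ∃ z : ℤ, q = z := by
  by_cases h0 : q = 0
  · exact ⟨0, by rw [h0]; simp⟩
  refine ⟨q.num, ?_⟩
  have hden : q.den = 1 := by
    by_contra hne
    obtain ⟨p, hp, hpd⟩ := Nat.exists_prime_and_dvd hne
    have hf : Fact p.Prime := ⟨hp⟩
    have h1 := h p hf
    rw [DV.ge_iff _ h0] at h1
    have h2 : (padicDV p).o q = padicValRat p q := rfl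
    rw [h2, padicValRat_def] at h1
    have h3 : 1 ≤ padicValNat p q.den := one_le_padicValNat_of_dvd q.den_nz hpd
    have h4 : padicValInt p q.num = 0 := by
      unfold padicValInt
      refine padicValNat.eq_zero_of_not_dvd fun h5 => ?_
      have h6 := Nat.dvd_gcd h5 hpd
      rw [q.reduced.gcd_eq_one] at h6
      exact hp.one_lt.ne' (Nat.dvd_one.1 h6)
    rw [h4] at h1
    omega
  exact (Rat.coe_int_num_of_den_eq_one hden).symm

/-- The integral elements are closed under the ring operations. -/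
theorem DV.ge_closure {L : Type u} [Field L] (v : DV L) (E : Set L) (hE : ∀ x ∈ E, v.ge 0 x)
    (x : L) (hx : x ∈ Subring.closure E) : v.ge 0 x := by
  induction hx using Subring.closure_induction with
  | mem x hx => exact hE x hx
  | zero => exact v.ge_zero 0
  | one => exact v.ge_one
  | add x y _ _ h1 h2 => exact v.ge_add h1 h2
  | neg x _ h1 => exact v.ge_neg h1
  | mul x y _ _ h1 h2 =>
    have := v.ge_mul h1 h2
    rwa [add_zero] at this

/-- The primes in the denominators. -/
theorem exists_primes (E : Finset ℚ) : ∃ P : Finset ℕ, (∀ p ∈ P, p.Prime) ∧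
    ∀ (p : ℕ) (hp : Fact p.Prime), p ∉ P → ∀ x ∈ Subring.closure (E : Set ℚ),
      (padicDV p).ge 0 x := by
  classical
  refine ⟨E.biUnion fun x => x.den.primeFactors, ?_, ?_⟩
  · intro p hp
    obtain ⟨x, -, hx⟩ := Finset.mem_biUnion.1 hp
    exact Nat.prime_of_mem_primeFactors hx
  · intro p hp hpP x hx
    refine DV.ge_closure _ _ (fun y hy => ?_) x hx
    by_cases h0 : y = 0
    · rw [h0]
      exact DV.ge_zero _ _
    rw [DV.ge_iff _ h0]
    have h2 : (padicDV p).o y = padicValRat p y := rfl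
    rw [h2, padicValRat_def]
    have h3 : padicValNat p y.den = 0 := by
      refine padicValNat.eq_zero_of_not_dvd fun h5 => hpP ?_
      exact Finset.mem_biUnion.2 ⟨y, hy, Nat.mem_primeFactors.2 ⟨hp.out, h5, y.den_nz⟩⟩
    rw [h3]
    omega

/-- Every matrix has entries of bounded order. -/
theorem DV.exists_bound {L : Type u} [Field L] (v : DV L) (x : Matrix (Fin 2) (Fin 2) L) :
    ∃ k : ℕ, ∀ i j, v.ge (-(k : ℤ)) (x i j) := by
  have h : ∀ i j, ∃ k : ℕ, v.ge (-(k : ℤ)) (x i j) := by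
    intro i j
    refine ⟨(v.o (x i j)).natAbs, Or.inr ?_⟩
    omega
  choose k hk using h
  refine ⟨∑ i, ∑ j, k i j, fun i j => v.ge_mono ?_ (hk i j)⟩
  have h1 : k i j ≤ ∑ j, k i j := Finset.single_le_sum (fun _ _ => Nat.zero_le _)
    (Finset.mem_univ j)
  have h2 : ∑ j, k i j ≤ ∑ i, ∑ j, k i j := Finset.single_le_sum
    (f := fun i => ∑ j, k i j) (fun _ _ => Nat.zero_le _) (Finset.mem_univ i)
  omega

/-- The stabiliser of a vertex is bounded. -/
theorem DV.bounded {L : Type u} [Field L] (v : DV L) (x : v.Vt) :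
    ∃ k : ℕ, ∀ g : GL2 L, v.o g.val.det = 0 → g • x = x → ∀ i j,
      v.ge (-(k : ℤ)) (g.val i j) := by
  induction x using QuotientGroup.induction_on with | H a => ?_
  obtain ⟨k, hk⟩ := v.exists_bound a.val
  obtain ⟨l, hl⟩ := v.exists_bound a⁻¹.val
  refine ⟨k + l, fun g hg hx i j => ?_⟩
  have e1 : g • ((a : GL2 L) : v.Vt) = ((g * a : GL2 L) : v.Vt) := rfl
  rw [e1] at hx
  have h1 : a⁻¹ * (g * a) ∈ v.H := QuotientGroup.eq.1 hx.symm
  rw [DV.mem_H, ← mul_assoc] at h1
  obtain ⟨n, h2, h3⟩ := h1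
  rw [DV.det_conj, hg] at h3
  have hn : n = 0 := by omega
  subst hn
  have e2 : g = a * (a⁻¹ * g * a) * a⁻¹ := by group
  rw [e2, Units.val_mul, Units.val_mul, Matrix.mul_apply]
  refine v.ge_sum _ _ fun m _ => ?_
  have h4 : v.ge (-(k : ℤ)) ((a.val * (a⁻¹ * g * a).val) i m) := by
    rw [Matrix.mul_apply]
    refine v.ge_sum _ _ fun m' _ => ?_
    have := v.ge_mul (hk i m') (h2 m' m)
    rwa [add_zero] at this
  have h5 := v.ge_mul h4 (hl m j)
  refine v.ge_mono ?_ h5
  push_cast
  linarith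

end Pool.Agent.Lib.MP_551055_al.BT
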