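import Mathlib
import Pool.Agent.Lib.MP_551055_al.Trim.LS.PStmts

/-!
# Groups which embed in a finitely generated free abelian group are poly-`ℤ`
-/

set_option autoImplicit false

namespace Pool.Agent.Lib.MP_551055_al.LS
end Pool.Agent.Lib.MP_551055_al.LS

namespace Pool.Agent.Lib.MP_551055_al.BT

open Pool.Agent.Lib.MP_551055_al.LS

/-- A nontrivial homomorphism to `ℤ` can be divided to become surjective. -/
theorem exists_surjective {Γ : Type} [Group Γ] (f : Γ →* Multiplicative ℤ) (hf : ∃ γ, f γ ≠ 1) :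
    ∃ g : Γ →* Multiplicative ℤ, Function.Surjective g ∧ ∀ γ, g γ = 1 ↔ f γ = 1 := by
  let H : AddSubgroup ℤ :=
    { carrier := {n | ∃ γ, f γ = Multiplicative.ofAdd n}
      add_mem' := by
        rintro a b ⟨γ, hγ⟩ ⟨γ', hγ'⟩
        exact ⟨γ * γ', by rw [map_mul, hγ, hγ']; rfl⟩
      zero_mem' := ⟨1, by rw [map_one]; rfl⟩
      neg_mem' := by
        rintro a ⟨γ, hγ⟩
        exact ⟨γ⁻¹, by rw [map_inv, hγ]; rfl⟩ }
  obtain ⟨d, hd⟩ := Int.subgroup_cyclic H
  have hdvd : ∀ γ, d ∣ Multiplicative.toAdd (f γ) := by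
    intro γ
    have h1 : Multiplicative.toAdd (f γ) ∈ H := ⟨γ, rfl⟩
    rw [hd, AddSubgroup.mem_closure_singleton] at h1
    obtain ⟨k, hk⟩ := h1
    exact ⟨k, by rw [← hk, smul_eq_mul, mul_comm]⟩
  have hd0 : d ≠ 0 := by
    rintro rfl
    obtain ⟨γ, hγ⟩ := hf
    exact hγ (zero_dvd_iff.1 (hdvd γ))
  have hdH : d ∈ H := by
    rw [hd]
    exact AddSubgroup.subset_closure rfl
  refine ⟨{ toFun := fun γ => Multiplicative.ofAdd (Multiplicative.toAdd (f γ) / d)
            map_one' := by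
              rw [map_one, toAdd_one, Int.zero_ediv]
              rfl
            map_mul' := fun a b => by
              rw [map_mul, toAdd_mul, Int.add_ediv_of_dvd_left (hdvd a)]
              rfl }, ?_, ?_⟩
  · intro y
    obtain ⟨γ, hγ⟩ := hdH
    refine ⟨γ ^ Multiplicative.toAdd y, ?_⟩
    show Multiplicative.ofAdd (Multiplicative.toAdd (f (γ ^ Multiplicative.toAdd y)) / d) = y
    rw [map_zpow, hγ, toAdd_zpow, toAdd_ofAdd, smul_eq_mul, Int.mul_ediv_cancel _ hd0]
    rfl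
  · intro γ
    show Multiplicative.ofAdd (Multiplicative.toAdd (f γ) / d) = 1 ↔ _
    rw [← ofAdd_zero, Multiplicative.ofAdd.injective.eq_iff]
    obtain ⟨k, hk⟩ := hdvd γ
    constructor
    · intro h
      rw [hk, Int.mul_ediv_cancel_left _ hd0] at h
      rw [h, mul_zero] at hk
      exact hk
    · intro h
      rw [h, toAdd_ofAdd, Int.zero_ediv]

/-- Groups which embed in `ℤ ^ n` are poly-`ℤ`. -/
theorem polyZ_of_embedding (n : ℕ) : ∀ (Γ : Type) [Group Γ] (δ : Fin n → Γ →* Multiplicative ℤ),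
    (∀ γ, (∀ i, δ i γ = 1) → γ = 1) → PolyZ Γ := by
  induction n with
  | zero =>
    intro Γ _ δ h
    exact PolyZ.triv Γ ⟨fun a b => by rw [h a fun i => i.elim0, h b fun i => i.elim0]⟩
  | succ n ih =>
    intro Γ _ δ h
    by_cases h0 : ∃ γ, δ 0 γ ≠ 1
    · obtain ⟨g, hg, hg'⟩ := exists_surjective (δ 0) h0
      refine PolyZ.ext Γ g hg (ih g.ker (fun i => (δ i.succ).comp g.ker.subtype) fun γ hγ => ?_)
      refine Subtype.ext (h γ fun i => ?_)
      refine Fin.cases ?_ (fun i => ?_) i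
      · exact (hg' γ).1 γ.2
      · exact hγ i
    · push Not at h0
      refine ih Γ (fun i => δ i.succ) fun γ hγ => h γ fun i => ?_
      exact Fin.cases (h0 γ) (fun i => hγ i) i

/-- The same for a finite index type. -/
theorem polyZ_of_finite {J : Type} [Finite J] (Γ : Type) [Group Γ] (δ : J → Γ →* Multiplicative ℤ)
    (h : ∀ γ, (∀ j, δ j γ = 1) → γ = 1) : PolyZ Γ := by
  obtain ⟨n, ⟨e⟩⟩ := Finite.exists_equiv_fin J
  exact polyZ_of_embedding n Γ (fun i => δ (e.symm i)) fun γ hγ => h γ fun j => by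
    have := hγ (e j)
    rwa [e.symm_apply_apply] at this

end Pool.Agent.Lib.MP_551055_al.BT
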