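import Mathlib
import Pool.Agent.Lib.MP_551055_al.Trim.BT.HtCrit

/-!
# The tree of `SL₂(ℤ)`
-/

set_option autoImplicit false

namespace Pool.Agent.Lib.MP_551055_al.LS
end Pool.Agent.Lib.MP_551055_al.LS

namespace Pool.Agent.Lib.MP_551055_al.BT

open Pool.Agent.Lib.MP_551055_al.LS

/-- The group `SL₂(ℤ)`. -/
abbrev SLZ := Matrix.SpecialLinearGroup (Fin 2) ℤ

namespace SLZ

/-- The element of order four. -/
def S : SLZ := ⟨!![0, -1; 1, 0], by simp [Matrix.det_fin_two]⟩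

/-- The element of order six. -/
def R : SLZ := ⟨!![0, 1; -1, 1], by simp [Matrix.det_fin_two]⟩

theorem S_val : (S : Matrix (Fin 2) (Fin 2) ℤ) = !![0, -1; 1, 0] := rfl

theorem R_val : (R : Matrix (Fin 2) (Fin 2) ℤ) = !![0, 1; -1, 1] := rfl

theorem S2 : S ^ 2 = -1 := by
  refine Subtype.ext ?_
  rw [Matrix.SpecialLinearGroup.coe_pow, Matrix.SpecialLinearGroup.coe_neg,
    Matrix.SpecialLinearGroup.coe_one, S_val, pow_two]
  decide

theorem R3 : R ^ 3 = -1 := by
  refine Subtype.ext ?_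
  rw [Matrix.SpecialLinearGroup.coe_pow, Matrix.SpecialLinearGroup.coe_neg,
    Matrix.SpecialLinearGroup.coe_one, R_val, pow_succ, pow_two]
  decide

theorem neg_mem_S : (-1 : SLZ) ∈ Subgroup.zpowers S := ⟨2, by
  show S ^ (2 : ℤ) = -1
  rw [← S2]; rfl⟩

theorem neg_mem_R : (-1 : SLZ) ∈ Subgroup.zpowers R := ⟨3, by
  show R ^ (3 : ℤ) = -1
  rw [← R3]; rfl⟩

/-- The norm of the first column. -/
def n1 (g : SLZ) : ℤ := g 0 0 ^ 2 + g 1 0 ^ 2

/-- The norm of the second column. -/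
def n2 (g : SLZ) : ℤ := g 0 1 ^ 2 + g 1 1 ^ 2

/-- The scalar product of the columns. -/
def sg (g : SLZ) : ℤ := g 0 0 * g 0 1 + g 1 0 * g 1 1

theorem det_eq (g : SLZ) : g 0 0 * g 1 1 - g 0 1 * g 1 0 = 1 := by
  have h := g.2
  rwa [Matrix.det_fin_two] at h

theorem n1n2 (g : SLZ) : n1 g * n2 g = sg g ^ 2 + 1 := by
  have h := det_eq g
  unfold n1 n2 sg
  linear_combination (g 0 0 * g 1 1 - g 0 1 * g 1 0 + 1) * h

theorem n1_pos (g : SLZ) : 0 < n1 g := by
  have h := n1n2 g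
  have h1 : 0 ≤ n1 g := by unfold n1; positivity
  rcases h1.eq_or_lt with h2 | h2
  · rw [← h2] at h
    nlinarith [sq_nonneg (sg g)]
  · exact h2

theorem n2_pos (g : SLZ) : 0 < n2 g := by
  have h := n1n2 g
  have h1 : 0 ≤ n2 g := by unfold n2; positivity
  rcases h1.eq_or_lt with h2 | h2
  · rw [← h2] at h
    nlinarith [sq_nonneg (sg g)]
  · exact h2

theorem mulS (g : SLZ) : (g * S) 0 0 = g 0 1 ∧ (g * S) 0 1 = -g 0 0 ∧ (g * S) 1 0 = g 1 1 ∧
    (g * S) 1 1 = -g 1 0 := by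
  rw [Matrix.SpecialLinearGroup.coe_mul, S_val]
  simp [Matrix.mul_apply, Fin.sum_univ_two]

theorem mulR (g : SLZ) : (g * R) 0 0 = -g 0 1 ∧ (g * R) 0 1 = g 0 0 + g 0 1 ∧
    (g * R) 1 0 = -g 1 1 ∧ (g * R) 1 1 = g 1 0 + g 1 1 := by
  rw [Matrix.SpecialLinearGroup.coe_mul, R_val]
  simp [Matrix.mul_apply, Fin.sum_univ_two]

theorem sg_S (g : SLZ) : sg (g * S) = -sg g := by
  obtain ⟨h1, h2, h3, h4⟩ := mulS g
  unfold sg
  rw [h1, h2, h3, h4]
  ring

theorem n1_S (g : SLZ) : n1 (g * S) = n2 g := by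
  obtain ⟨h1, h2, h3, h4⟩ := mulS g
  unfold n1 n2
  rw [h1, h3]

theorem n2_S (g : SLZ) : n2 (g * S) = n1 g := by
  obtain ⟨h1, h2, h3, h4⟩ := mulS g
  unfold n1 n2
  rw [h2, h4]
  ring

theorem sg_R (g : SLZ) : sg (g * R) = -sg g - n2 g := by
  obtain ⟨h1, h2, h3, h4⟩ := mulR g
  unfold sg n2
  rw [h1, h2, h3, h4]
  ring

theorem n1_R (g : SLZ) : n1 (g * R) = n2 g := by
  obtain ⟨h1, h2, h3, h4⟩ := mulR g
  unfold n1 n2
  rw [h1, h3]
  ring

theorem n2_R (g : SLZ) : n2 (g * R) = n1 g + n2 g + 2 * sg g := by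
  obtain ⟨h1, h2, h3, h4⟩ := mulR g
  unfold n1 n2 sg
  rw [h2, h4]
  ring

theorem sg_neg (g : SLZ) : sg (-g) = sg g := by
  unfold sg
  simp

/-- The height of the first kind. -/
def hA (g : SLZ) : ℤ := 2 * (n1 g + n2 g) - 1

/-- The height of the second kind. -/
def hB (g : SLZ) : ℤ := 2 * (n1 g + n2 g) + 2 * sg g

theorem hA_S (g : SLZ) : hA (g * S) = hA g := by
  unfold hA
  rw [n1_S, n2_S]
  ring

theorem hB_R (g : SLZ) : hB (g * R) = hB g := by
  unfold hB
  rw [n1_R, n2_R, sg_R]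
  ring

theorem hA_pos (g : SLZ) : 0 < hA g := by
  have h1 := n1_pos g
  have h2 := n2_pos g
  unfold hA
  linarith

theorem hB_pos (g : SLZ) : 0 < hB g := by
  have h1 := n1_pos g
  have h2 := n2_pos g
  have h3 : hB g = n1 g + n2 g + n2 (g * R) := by
    unfold hB
    rw [n2_R]
    ring
  have h4 := n2_pos (g * R)
  linarith

/-- Functions on cosets of a cyclic group. -/
theorem lift_aux {X : Type} (s : SLZ) (f : SLZ → X) (hf : ∀ g, f (g * s) = f g) (a b : SLZ)
    (h : a⁻¹ * b ∈ Subgroup.zpowers s) : f a = f b := by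
  obtain ⟨k, hk⟩ := h
  have hb : b = a * s ^ k := by
    have hk' : s ^ k = a⁻¹ * b := hk
    rw [hk', mul_inv_cancel_left]
  rw [hb]
  clear hk hb b
  induction k using Int.induction_on generalizing a with
  | zero => rw [zpow_zero, mul_one]
  | succ k ih => rw [zpow_add_one, ← mul_assoc, hf]; exact ih a
  | pred k ih =>
    rw [zpow_sub_one, ← mul_assoc]
    have h1 := hf (a * s ^ (-(k : ℤ)) * s⁻¹)
    rw [inv_mul_cancel_right] at h1
    rw [← h1]
    exact ih a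

/-- The vertices. -/
abbrev Vx := (SLZ ⧸ Subgroup.zpowers S) ⊕ (SLZ ⧸ Subgroup.zpowers R)

/-- The relation between the two kinds of vertices. -/
def rel (x : SLZ ⧸ Subgroup.zpowers S) (y : SLZ ⧸ Subgroup.zpowers R) : Prop :=
  ∃ g : SLZ, (g : SLZ ⧸ Subgroup.zpowers S) = x ∧ (g : SLZ ⧸ Subgroup.zpowers R) = y

/-- The neighbours. -/
def adj : Vx → Vx → Prop
  | Sum.inl x, Sum.inr y => rel x y
  | Sum.inr y, Sum.inl x => rel x y
  | Sum.inl _, Sum.inl _ => False
  | Sum.inr _, Sum.inr _ => False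

/-- The tree. -/
def T : SimpleGraph Vx where
  Adj := adj
  symm := ⟨by
    rintro (x | x) (y | y) h
    · exact h
    · exact h
    · exact h
    · exact h⟩
  loopless := ⟨by
    rintro (x | x) h
    · exact h
    · exact h⟩

/-- The height. -/
def ht : Vx → ℕ
  | Sum.inl x => Quotient.lift (fun g => (hA g).toNat) (fun a b hab => by
      have h : a⁻¹ * b ∈ Subgroup.zpowers S := QuotientGroup.leftRel_apply.1 hab
      exact lift_aux S (fun g => (hA g).toNat) (fun g => by rw [hA_S]) a b h) x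
  | Sum.inr x => Quotient.lift (fun g => (hB g).toNat) (fun a b hab => by
      have h : a⁻¹ * b ∈ Subgroup.zpowers R := QuotientGroup.leftRel_apply.1 hab
      exact lift_aux R (fun g => (hB g).toNat) (fun g => by rw [hB_R]) a b h) x

theorem ht_inl (g : SLZ) : ht (Sum.inl (g : SLZ ⧸ Subgroup.zpowers S)) = (hA g).toNat := rfl

theorem ht_inr (g : SLZ) : ht (Sum.inr (g : SLZ ⧸ Subgroup.zpowers R)) = (hB g).toNat := rfl

/-- Comparison of the heights. -/
theorem ht_lt (g : SLZ) : (ht (Sum.inr (g : SLZ ⧸ Subgroup.zpowers R)) <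
      ht (Sum.inl (g : SLZ ⧸ Subgroup.zpowers S)) ↔ sg g < 0) ∧
    (ht (Sum.inl (g : SLZ ⧸ Subgroup.zpowers S)) <
      ht (Sum.inr (g : SLZ ⧸ Subgroup.zpowers R)) ↔ 0 ≤ sg g) := by
  have h1 := hA_pos g
  have h2 := hB_pos g
  rw [ht_inl, ht_inr]
  unfold hA hB at *
  constructor <;> constructor <;> intro h <;> omega

/-- Two representatives of a vertex of the first kind. -/
theorem uniqA (g g' : SLZ) (h : (g : SLZ ⧸ Subgroup.zpowers S) = (g' : SLZ ⧸ Subgroup.zpowers S))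
    (h1 : sg g < 0) (h2 : sg g' < 0) :
    (g : SLZ ⧸ Subgroup.zpowers R) = (g' : SLZ ⧸ Subgroup.zpowers R) := by
  obtain ⟨k, hk⟩ := QuotientGroup.eq.1 h
  have hk' : S ^ k = g⁻¹ * g' := hk
  have hg' : g' = g * S ^ k := by rw [hk', mul_inv_cancel_left]
  rw [QuotientGroup.eq, ← hk']
  rcases Int.even_or_odd' k with ⟨m, rfl | rfl⟩
  · rw [zpow_mul]
    have : S ^ (2 : ℤ) = -1 := S2
    rw [this]
    exact Subgroup.zpow_mem _ neg_mem_R m
  · exfalso
    have h3 : g' = g * S ∨ g' = -(g * S) := by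
      rw [hg', zpow_add, zpow_mul, zpow_one]
      have : S ^ (2 : ℤ) = -1 := S2
      rw [this]
      rcases Int.even_or_odd m with hm | hm
      · left
        rw [hm.neg_one_zpow, one_mul]
      · right
        rw [hm.neg_one_zpow]
        simp
    rcases h3 with h3 | h3
    · rw [h3, sg_S] at h2
      linarith
    · rw [h3, sg_neg, sg_S] at h2
      linarith

/-- Two representatives of a vertex of the second kind. -/
theorem uniqB (g g' : SLZ) (h : (g : SLZ ⧸ Subgroup.zpowers R) = (g' : SLZ ⧸ Subgroup.zpowers R))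
    (h1 : 0 ≤ sg g) (h2 : 0 ≤ sg g') :
    (g : SLZ ⧸ Subgroup.zpowers S) = (g' : SLZ ⧸ Subgroup.zpowers S) := by
  obtain ⟨k, hk⟩ := QuotientGroup.eq.1 h
  have hk' : R ^ k = g⁻¹ * g' := hk
  have hg' : g' = g * R ^ k := by rw [hk', mul_inv_cancel_left]
  have hR3 : R ^ (3 : ℤ) = -1 := R3
  rw [QuotientGroup.eq, ← hk']
  have hkm : k = 3 * (k / 3) + k % 3 := (Int.mul_ediv_add_emod k 3).symm
  have hpow : ∀ m : ℤ, (-1 : SLZ) ^ m = 1 ∨ (-1 : SLZ) ^ m = -1 := by
    intro m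
    rcases Int.even_or_odd m with hm | hm
    · exact Or.inl hm.neg_one_zpow
    · exact Or.inr hm.neg_one_zpow
  have hn1 := n1_pos g
  have hn2 := n2_pos g
  have hn1' := n1_pos (g * R)
  have hn2' := n2_pos (g * R)
  have hcase : k % 3 = 0 ∨ k % 3 = 1 ∨ k % 3 = 2 := by omega
  rcases hcase with h3 | h3 | h3
  · rw [hkm, h3, add_zero, zpow_mul, hR3]
    exact Subgroup.zpow_mem _ neg_mem_S _
  · exfalso
    have h4 : g' = g * R ∨ g' = -(g * R) := by
      rw [hg', hkm, h3, zpow_add, zpow_mul, zpow_one, hR3]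
      rcases hpow (k / 3) with e | e <;> rw [e] <;> simp
    rcases h4 with h4 | h4
    · rw [h4, sg_R] at h2
      linarith
    · rw [h4, sg_neg, sg_R] at h2
      linarith
  · exfalso
    have h5 : R ^ (2 : ℤ) = R * R := by rw [zpow_ofNat, pow_two]
    have h4 : g' = g * R * R ∨ g' = -(g * R * R) := by
      rw [hg', hkm, h3, zpow_add, zpow_mul, hR3, h5]
      rcases hpow (k / 3) with e | e <;> rw [e] <;> simp [mul_assoc]
    rcases h4 with h4 | h4
    · rw [h4, sg_R, sg_R, n2_R] at h2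
      linarith
    · rw [h4, sg_neg, sg_R, sg_R, n2_R] at h2
      linarith

/-- Elements with orthogonal columns. -/
theorem mem_of_sg (g : SLZ) (h : sg g = 0) : g ∈ Subgroup.zpowers S := by
  have h1 := n1n2 g
  rw [h] at h1
  have h2 := n1_pos g
  have h3 := n2_pos g
  have h4 : n1 g = 1 := by nlinarith
  have hd := det_eq g
  have e1 : g 1 1 = g 0 0 := by
    unfold n1 at h4
    unfold sg at h
    linear_combination (-(g 1 1)) * h4 + g 0 0 * hd + g 1 0 * h
  have e2 : g 0 1 = -g 1 0 := by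
    unfold n1 at h4
    unfold sg at h
    linear_combination (-(g 0 1)) * h4 - g 1 0 * hd + g 0 0 * h
  have h5 : (g 0 0 = 1 ∧ g 1 0 = 0) ∨ (g 0 0 = -1 ∧ g 1 0 = 0) ∨ (g 0 0 = 0 ∧ g 1 0 = 1) ∨
      (g 0 0 = 0 ∧ g 1 0 = -1) := by
    unfold n1 at h4
    have b1 : g 0 0 ≤ 1 := by nlinarith [sq_nonneg (g 1 0)]
    have b2 : -1 ≤ g 0 0 := by nlinarith [sq_nonneg (g 1 0)]
    have b3 : g 1 0 ≤ 1 := by nlinarith [sq_nonneg (g 0 0)]
    have b4 : -1 ≤ g 1 0 := by nlinarith [sq_nonneg (g 0 0)]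
    have c1 : g 0 0 = -1 ∨ g 0 0 = 0 ∨ g 0 0 = 1 := by omega
    have c2 : g 1 0 = -1 ∨ g 1 0 = 0 ∨ g 1 0 = 1 := by omega
    rcases c1 with c1 | c1 | c1 <;> rcases c2 with c2 | c2 | c2 <;> rw [c1, c2] at h4 <;>
      simp_all
  rcases h5 with ⟨h5, h6⟩ | ⟨h5, h6⟩ | ⟨h5, h6⟩ | ⟨h5, h6⟩
  · have : g = 1 := by
      ext i j
      fin_cases i <;> fin_cases j <;> simp [h5, h6, e1, e2]
    rw [this]
    exact one_mem _
  · have : g = -1 := by
      ext i j
      fin_cases i <;> fin_cases j <;> simp [h5, h6, e1, e2]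
    rw [this]
    exact neg_mem_S
  · have : g = S := by
      ext i j
      fin_cases i <;> fin_cases j <;> simp [h5, h6, e1, e2, S]
    rw [this]
    exact Subgroup.mem_zpowers S
  · have : g = -S := by
      ext i j
      rw [Matrix.SpecialLinearGroup.coe_neg, S_val]
      fin_cases i <;> fin_cases j <;> simp [h5, h6, e1, e2]
    rw [this, ← neg_one_mul]
    exact mul_mem neg_mem_S (Subgroup.mem_zpowers S)

/-- One of the three representatives of a vertex of the second kind. -/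
theorem exists_B (g : SLZ) : ∃ g' : SLZ,
    (g' : SLZ ⧸ Subgroup.zpowers R) = (g : SLZ ⧸ Subgroup.zpowers R) ∧ 0 ≤ sg g' := by
  have hmem : ∀ a : SLZ, ((a * R : SLZ) : SLZ ⧸ Subgroup.zpowers R) = (a : SLZ ⧸ _) := by
    intro a
    rw [QuotientGroup.eq]
    have : (a * R)⁻¹ * a = R⁻¹ := by group
    rw [this]
    exact inv_mem (Subgroup.mem_zpowers R)
  by_cases h1 : 0 ≤ sg g
  · exact ⟨g, rfl, h1⟩
  by_cases h2 : 0 ≤ sg (g * R)
  · exact ⟨g * R, hmem g, h2⟩
  by_cases h3 : 0 ≤ sg (g * R * R)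
  · exact ⟨g * R * R, (hmem _).trans (hmem g), h3⟩
  exfalso
  rw [sg_R] at h2
  rw [sg_R, sg_R, n2_R] at h3
  have h4 := n1n2 g
  push Not at h1 h2 h3
  have x1 : 1 ≤ -sg g := by omega
  have y1 : 1 ≤ n2 g + sg g := by omega
  have z1 : 1 ≤ n1 g + sg g := by omega
  nlinarith [mul_le_mul x1 y1 (by norm_num) (by linarith : (0 : ℤ) ≤ -sg g),
    mul_le_mul x1 z1 (by norm_num) (by linarith : (0 : ℤ) ≤ -sg g),
    mul_le_mul y1 z1 (by norm_num) (by linarith : (0 : ℤ) ≤ n2 g + sg g)]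

theorem T_isTree : T.IsTree := by
  refine isTree_of_height T ht (Sum.inl ((1 : SLZ) : SLZ ⧸ Subgroup.zpowers S)) ?_ ?_ ?_
  · rintro (x | x) (y | y) h
    · exact h.elim
    · obtain ⟨g, rfl, rfl⟩ := h
      rcases lt_or_ge (sg g) 0 with h | h
      · exact ((ht_lt g).1.2 h).ne'
      · exact ((ht_lt g).2.2 h).ne
    · obtain ⟨g, rfl, rfl⟩ := h
      rcases lt_or_ge (sg g) 0 with h | h
      · exact ((ht_lt g).1.2 h).ne
      · exact ((ht_lt g).2.2 h).ne'
    · exact h.elim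
  · rintro (x | x) hx
    · induction x using QuotientGroup.induction_on with | H g => ?_
      rcases lt_trichotomy (sg g) 0 with h | h | h
      · exact ⟨Sum.inr g, ⟨g, rfl, rfl⟩, (ht_lt g).1.2 h⟩
      · exfalso
        refine hx (congrArg Sum.inl ?_)
        rw [QuotientGroup.eq, mul_one]
        exact inv_mem (mem_of_sg g h)
      · have e : ((g * S : SLZ) : SLZ ⧸ Subgroup.zpowers S) = (g : SLZ ⧸ _) := by
          rw [QuotientGroup.eq]
          have : (g * S)⁻¹ * g = S⁻¹ := by group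
          rw [this]
          exact inv_mem (Subgroup.mem_zpowers S)
        refine ⟨Sum.inr (g * S : SLZ), ⟨g * S, e, rfl⟩, ?_⟩
        rw [← e]
        refine (ht_lt (g * S)).1.2 ?_
        rw [sg_S]
        linarith
    · induction x using QuotientGroup.induction_on with | H g => ?_
      obtain ⟨g', e, h⟩ := exists_B g
      refine ⟨Sum.inl g', ⟨g', rfl, e⟩, ?_⟩
      rw [← e]
      exact (ht_lt g').2.2 h
  · rintro (x | x) (y | y) (z | z) hy hz h1 h2
    · exact hy.elim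
    · exact hy.elim
    · exact hz.elim
    · obtain ⟨g, rfl, rfl⟩ := hy
      obtain ⟨g', e, rfl⟩ := hz
      rw [← e] at h2
      exact congrArg Sum.inr (uniqA g g' e.symm ((ht_lt g).1.1 h1) ((ht_lt g').1.1 h2))
    · obtain ⟨g, rfl, rfl⟩ := hy
      obtain ⟨g', rfl, e⟩ := hz
      rw [← e] at h2
      exact congrArg Sum.inl (uniqB g g' e.symm ((ht_lt g).2.1 h1) ((ht_lt g').2.1 h2))
    · exact hz.elim
    · exact hy.elim
    · exact hy.elim

/-- The stabilisers. -/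
theorem pow_of_fixed (g : SLZ) (x : Vx) (h : g • x = x) :
    (∃ a : SLZ, a⁻¹ * g * a ∈ Subgroup.zpowers S) ∨
      ∃ a : SLZ, a⁻¹ * g * a ∈ Subgroup.zpowers R := by
  rcases x with x | x
  · induction x using QuotientGroup.induction_on with | H a => ?_
    left
    refine ⟨a, ?_⟩
    have h1 : ((g * a : SLZ) : SLZ ⧸ Subgroup.zpowers S) = (a : SLZ ⧸ _) := Sum.inl.inj h
    have h2 := QuotientGroup.eq.1 h1.symm
    rwa [← mul_assoc] at h2
  · induction x using QuotientGroup.induction_on with | H a => ?_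
    right
    refine ⟨a, ?_⟩
    have h1 : ((g * a : SLZ) : SLZ ⧸ Subgroup.zpowers R) = (a : SLZ ⧸ _) := Sum.inr.inj h
    have h2 := QuotientGroup.eq.1 h1.symm
    rwa [← mul_assoc] at h2

end SLZ

end Pool.Agent.Lib.MP_551055_al.BT
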