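import Mathlib
import Pool.Agent.Lib.MP_551055_al.Trim.BT.SL2Z
import Pool.Agent.Lib.MP_551055_al.Trim.LS.Stmts

/-!
# The stabilisers: free groups times free abelian groups, commutative groups
-/

set_option autoImplicit false

namespace Pool.Agent.Lib.MP_551055_al.LS
end Pool.Agent.Lib.MP_551055_al.LS

namespace Pool.Agent.Lib.MP_551055_al.BT

open Pool.Agent.Lib.MP_551055_al.LS

theorem treeAct_comp {Γ Δ : Type} [Group Γ] [Group Δ] {V : Type} [MulAction Δ V]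
    {T : SimpleGraph V} (h : TreeAct Δ V T) (φ : Γ →* Δ) :
    @TreeAct Γ _ V (MulAction.compHom V φ) T :=
  @TreeAct.mk Γ _ V (MulAction.compHom V φ) T h.tree (fun γ u v huv => h.adj (φ γ) u v huv)
    fun γ u v huv h1 => h.inv (φ γ) u v huv h1

theorem SLZ.pow_twelve {S : SLZ} (hS : S ^ 12 = 1) {a g : SLZ}
    (h : a⁻¹ * g * a ∈ Subgroup.zpowers S) : g ^ 12 = 1 := by
  obtain ⟨k, hk⟩ := h
  have hk' : S ^ k = a⁻¹ * g * a := hk
  have h1 : (a⁻¹ * g * a) ^ 12 = 1 := by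
    rw [← hk', ← zpow_natCast, ← zpow_mul, mul_comm, zpow_mul, zpow_natCast, hS, one_zpow]
  have h2 : (a⁻¹ * g * a) ^ 12 = a⁻¹ * g ^ 12 * a := by
    have := conj_pow (i := 12) (a := a⁻¹) (b := g)
    rw [inv_inv] at this
    exact this
  rw [h2] at h1
  have h3 : g ^ 12 = a * (a⁻¹ * g ^ 12 * a) * a⁻¹ := by group
  rw [h3, h1, mul_one, mul_inv_cancel]

/-- Elements which fix a vertex of the tree of `SL₂(ℤ)`. -/
theorem SLZ.pow_eq_one (g : SLZ) (x : SLZ.Vx) (h : g • x = x) : g ^ 12 = 1 := by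
  have hS : SLZ.S ^ 12 = 1 := by
    rw [show (12 : ℕ) = 2 * 6 from rfl, pow_mul, SLZ.S2]
    rw [show (6 : ℕ) = 2 * 3 from rfl, pow_mul, neg_one_sq, one_pow]
  have hR : SLZ.R ^ 12 = 1 := by
    rw [show (12 : ℕ) = 3 * 4 from rfl, pow_mul, SLZ.R3]
    rw [show (4 : ℕ) = 2 * 2 from rfl, pow_mul, neg_one_sq, one_pow]
  rcases SLZ.pow_of_fixed g x h with ⟨a, ha⟩ | ⟨a, ha⟩
  · exact SLZ.pow_twelve hS ha
  · exact SLZ.pow_twelve hR ha

end Pool.Agent.Lib.MP_551055_al.BT
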