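import Mathlib

/-!
# Groups of matrices with a normal subgroup of unipotent matrices
-/

set_option autoImplicit false

namespace Pool.Agent.Lib.MP_551055_al.BT

universe u

/-- The group `SL₂(R)`. -/
abbrev SL2 (R : Type u) [CommRing R] : Type u := Matrix.SpecialLinearGroup (Fin 2) R

variable {K : Type u} [Field K]

theorem sl_det (g : SL2 K) : g 0 0 * g 1 1 - g 0 1 * g 1 0 = 1 := by
  have h := g.2
  rwa [Matrix.det_fin_two] at h

/-- A unipotent matrix is conjugate to an upper triangular one. -/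
theorem exists_conj (n : SL2 K) (h : n 0 0 + n 1 1 = 2) :
    ∃ u : SL2 K, (u⁻¹ * n * u) 0 0 = 1 ∧ (u⁻¹ * n * u) 1 0 = 0 ∧ (u⁻¹ * n * u) 1 1 = 1 := by
  have hd := sl_det n
  -- an eigenvector
  obtain ⟨a, b, hab, e1, e2⟩ : ∃ a b : K, (a ≠ 0 ∨ b ≠ 0) ∧ n 0 0 * a + n 0 1 * b = a ∧
      n 1 0 * a + n 1 1 * b = b := by
    by_cases h1 : n 1 0 = 0
    · refine ⟨1, 0, Or.inl one_ne_zero, ?_, by rw [h1]; ring⟩
      rw [h1] at hd
      have h2 : (n 0 0 - 1) ^ 2 = 0 := by
        have : n 1 1 = 2 - n 0 0 := by rw [← h]; ring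
        rw [this] at hd
        linear_combination (-1 : K) * hd
      have h3 : n 0 0 - 1 = 0 := pow_eq_zero_iff (two_ne_zero) |>.1 h2
      linear_combination h3
    · refine ⟨n 0 0 - 1, n 1 0, Or.inr h1, ?_, ?_⟩
      · have : n 1 1 = 2 - n 0 0 := by rw [← h]; ring
        rw [this] at hd
        linear_combination (-1 : K) * hd
      · linear_combination (n 1 0) * h
  -- the matrix
  obtain ⟨c, d, hcd⟩ : ∃ c d : K, a * d - c * b = 1 := by
    rcases hab with h1 | h1
    · exact ⟨0, a⁻¹, by rw [mul_inv_cancel₀ h1]; ring⟩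
    · exact ⟨-b⁻¹, 0, by rw [mul_zero, neg_mul, inv_mul_cancel₀ h1]; ring⟩
  let u : SL2 K := ⟨!![a, c; b, d], by rw [Matrix.det_fin_two_of]; exact hcd⟩
  have hu : (u⁻¹ : SL2 K).1 = !![d, -c; -b, a] := by
    rw [Matrix.SpecialLinearGroup.coe_inv]
    exact Matrix.adjugate_fin_two_of _ _ _ _
  have hu' : u.1 = !![a, c; b, d] := rfl
  have h00 : (u⁻¹ * n * u) 0 0 = 1 := by
    rw [Matrix.SpecialLinearGroup.coe_mul, Matrix.SpecialLinearGroup.coe_mul, hu, hu']
    simp only [Matrix.mul_apply, Fin.sum_univ_two, Matrix.of_apply, Matrix.cons_val', Matrix.cons_val_zero,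
      Matrix.cons_val_one, Matrix.cons_val_fin_one]
    linear_combination d * e1 - c * e2 + hcd
  have h10 : (u⁻¹ * n * u) 1 0 = 0 := by
    rw [Matrix.SpecialLinearGroup.coe_mul, Matrix.SpecialLinearGroup.coe_mul, hu, hu']
    simp only [Matrix.mul_apply, Fin.sum_univ_two, Matrix.of_apply, Matrix.cons_val', Matrix.cons_val_zero,
      Matrix.cons_val_one, Matrix.cons_val_fin_one]
    linear_combination -b * e1 + a * e2
  refine ⟨u, h00, h10, ?_⟩
  have := sl_det (u⁻¹ * n * u)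
  rw [h00, h10] at this
  linear_combination this

end Pool.Agent.Lib.MP_551055_al.BT
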